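import Pool.Agent.Lib.MP_81b71e_G.Spec
import Pool.Agent.Lib.MP_81b71e_al.Lines

/-!
# MP_81b71e_al, theorem K: classes of atoms closed under perspectivity
-/

set_option autoImplicit false

namespace MP81G

open Pool.Agent.Lib.MP_81b71e_al

universe u

private theorem atom_compact {L : Type u} [CompleteLattice L] [IsCompactlyGenerated L] {a : L}
    (ha : IsAtom a) : IsCompactElement a := by
  obtain ⟨s, hs, hsa⟩ := IsCompactlyGenerated.exists_sSup_eq a
  by_contra hcon
  have h0 : ∀ c ∈ s, c = ⊥ := by
    intro c hc
    have hle : c ≤ a := by rw [← hsa]; exact le_sSup hc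
    rcases ha.le_iff.1 hle with h | h
    · exact h
    · exact absurd (h ▸ hs c hc) hcon
  apply ha.1
  rw [← hsa, sSup_eq_bot]
  exact h0

private theorem per_line {L : Type u} [Lattice L] [OrderBot L] [IsModularLattice L] {a q r : L}
    (ha : IsAtom a) (hq : IsAtom q) (hr : IsAtom r) (haq : a ≠ q) (har : a ≠ r) (hqr : q ≠ r)
    (h : a ≤ q ⊔ r) : Per q a := by
  right
  refine ⟨r, hr, Ne.symm hqr, Ne.symm har, ?_⟩
  have h1 := atoms_line hq hr hqr hq ha le_sup_left h (Ne.symm haq)
  rw [h1]
  exact le_sup_right

private theorem per_symm {L : Type u} [Lattice L] [OrderBot L] {p q : L} (h : Per p q) :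
    Per q p := by
  rcases h with h | ⟨a, ha, h1, h2, h3⟩
  · exact Or.inl h.symm
  · exact Or.inr ⟨a, ha, h2, h1, by rw [sup_comm]; exact h3⟩

theorem tCls (h1 : S_Pr.{u}) : S_Cls.{u} := by
  intro L _ _ _ _ C hC hP
  have fin : ∀ t : Finset L, (∀ p ∈ t, p ∈ C) → ∀ a, IsAtom a → a ≤ t.sup id → a ∈ C := by
    classical
    intro t
    induction t using Finset.induction_on with
    | empty =>
      intro _ a ha hle
      rw [Finset.sup_empty] at hle
      exact absurd (le_bot_iff.1 hle) ha.1
    | insert c t hc ih =>
      intro ht a ha hle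
      have hcC : c ∈ C := ht c (Finset.mem_insert_self _ _)
      have hcA := hC c hcC
      have ih' := ih fun p hp => ht p (Finset.mem_insert_of_mem hp)
      rw [Finset.sup_insert, id_eq] at hle
      rcases h1 L a c (t.sup id) ha hle with h | h | ⟨q, r, hq, hr, hqc, hrt, haq⟩
      · rcases hcA.le_iff.1 h with h | h
        · exact absurd h ha.1
        · rw [h]; exact hcC
      · exact ih' a ha h
      · have hqc' : q = c := by
          rcases hcA.le_iff.1 hqc with h | h
          · exact absurd h hq.1
          · exact h
        subst hqc'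
        have hrC := ih' r hr hrt
        by_cases e1 : a = q
        · rw [e1]; exact hcC
        by_cases e2 : a = r
        · rw [e2]; exact hrC
        by_cases e3 : q = r
        · exfalso
          rw [← e3, sup_idem] at haq
          rcases hq.le_iff.1 haq with h | h
          · exact ha.1 h
          · exact e1 h
        exact hP q hcC a ha (per_line ha hq hr e1 e2 e3 haq)
  have P1 : ∀ a, IsAtom a → a ≤ sSup C → a ∈ C := by
    intro a ha hle
    obtain ⟨t, ht, hat⟩ := (CompleteLattice.isCompactElement_iff_exists_le_sSup_of_le_sSup L a).1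
      (atom_compact ha) C hle
    exact fin t (fun p hp => ht hp) a ha hat
  have P2 : ∀ x y : L, (x ⊔ y) ⊓ sSup C = (x ⊓ sSup C) ⊔ (y ⊓ sSup C) := by
    intro x y
    apply le_antisymm
    · rw [le_iff_atom_le_imp]
      intro a ha hle
      have ha1 : a ≤ x ⊔ y := hle.trans inf_le_left
      have ha2 : a ≤ sSup C := hle.trans inf_le_right
      have haC := P1 a ha ha2
      rcases h1 L a x y ha ha1 with h | h | ⟨q, r, hq, hr, hqx, hry, haq⟩
      · exact (le_inf h ha2).trans le_sup_left
      · exact (le_inf h ha2).trans le_sup_right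
      · by_cases e1 : a = q
        · subst e1
          exact (le_inf hqx ha2).trans le_sup_left
        by_cases e2 : a = r
        · subst e2
          exact (le_inf hry ha2).trans le_sup_right
        by_cases e3 : q = r
        · exfalso
          rw [← e3, sup_idem] at haq
          rcases hq.le_iff.1 haq with h | h
          · exact ha.1 h
          · exact e1 h
        have hqC : q ∈ C := hP a haC q hq (per_symm (per_line ha hq hr e1 e2 e3 haq))
        have hrC : r ∈ C := hP a haC r hr (per_symm (per_line ha hr hq e2 e1 (Ne.symm e3)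
          (by rw [sup_comm]; exact haq)))
        exact haq.trans (sup_le_sup (le_inf hqx (le_sSup hqC)) (le_inf hry (le_sSup hrC)))
    · exact sup_le (inf_le_inf_right _ le_sup_left) (inf_le_inf_right _ le_sup_right)
  refine ⟨P1, P2, ?_⟩
  intro x hx
  obtain ⟨t, ht, hxt⟩ := (CompleteLattice.isCompactElement_iff_exists_le_sSup_of_le_sSup L x).1 hx
    {a | IsAtom a ∧ a ≤ x} (by
      rw [le_iff_atom_le_imp]
      intro a ha hle
      exact le_sSup ⟨ha, hle⟩)
  have hxe : x = t.sup id :=
    le_antisymm hxt (Finset.sup_le fun p hp => (ht hp).2)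
  have hsum : ∀ t : Finset L, (t.sup id) ⊓ sSup C = t.sup fun p => p ⊓ sSup C := by
    classical
    intro t
    induction t using Finset.induction_on with
    | empty => rw [Finset.sup_empty, Finset.sup_empty, bot_inf_eq]
    | insert c t hc ih => rw [Finset.sup_insert, Finset.sup_insert, P2, ih, id_eq]
  rw [hxe, hsum]
  refine CompleteLattice.isCompactElement_finsetSup t fun p hp => ?_
  have hpA := (ht hp).1
  rcases hpA.le_iff.1 (inf_le_left : p ⊓ sSup C ≤ p) with h | h
  · rw [h]
    have h0 := CompleteLattice.isCompactElement_finsetSup (α := L) (f := (id : L → L)) (∅ : Finset L)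
      (fun y hy => absurd hy (Finset.notMem_empty y))
    rwa [Finset.sup_empty] at h0
  · rw [h]
    exact atom_compact hpA

end MP81G
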