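import Pool.Agent.Lib.MP_81b71e_G.Spec
import Pool.Agent.Lib.MP_81b71e_al.Lines

/-!
# Module Cmp: complemented modular lattices
-/

set_option autoImplicit false

namespace MP81G

open Pool.Agent.Lib.MP_81b71e_al

universe u

theorem tCmp (hK : S_Ker.{u}) (hT : S_Tra.{u}) (hC : S_Cls.{u}) : S_Cmp.{u} := by
  classical
  intro L _ _ _ _ θ hθ hth
  have hat : IsAtomistic L := complementedLattice_iff_isAtomistic.1 inferInstance
  have atθ : ∀ {q : L}, IsAtom q → IsAtom (θ q) := fun {q} hq => (θ.isAtom_iff q).2 hq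
  have perθ : ∀ {p q : L}, Per p q → Per (θ p) (θ q) := by
    intro p q h
    rcases h with h | ⟨a, ha, h1, h2, h3⟩
    · exact Or.inl (by rw [h])
    · refine Or.inr ⟨θ a, atθ ha, fun h => h1 (θ.injective h), fun h => h2 (θ.injective h), ?_⟩
      rw [← map_sup]
      exact θ.monotone h3
  have sy : ∀ {p q : L}, IsAtom p → IsAtom q → Per p q → Per q p := fun {p q} hp hq h =>
    (hT L p q q hp hq hq).1 h
  have tr : ∀ {p q r : L}, IsAtom p → IsAtom q → IsAtom r → Per p q → Per q r → Per p r :=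
    fun {p q r} hp hq hr h1 h2 => (hT L p q r hp hq hr).2 h1 h2
  have cls : ∀ p : L, IsAtom p → (∀ a, IsAtom a → a ≤ comp θ p → (Per p a ∨ Per (θ p) a)) ∧
      (∀ x y : L, (x ⊔ y) ⊓ comp θ p = (x ⊓ comp θ p) ⊔ (y ⊓ comp θ p)) ∧
      ∀ x : L, IsCompactElement x → IsCompactElement (x ⊓ comp θ p) := by
    intro p hp
    obtain ⟨h1, h2, h3⟩ := hC L {q | IsAtom q ∧ (Per p q ∨ Per (θ p) q)} (fun q hq => hq.1) (by
      rintro q ⟨hq, h1⟩ r hr hqr
      refine ⟨hr, ?_⟩
      rcases h1 with h1 | h1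
      · exact Or.inl (tr hp hq hr h1 hqr)
      · exact Or.inr (tr (atθ hp) hq hr h1 hqr))
    exact ⟨fun a ha hle => (h1 a ha hle).2, h2, h3⟩
  have compθ : ∀ p : L, IsAtom p → θ (comp θ p) = comp θ p := by
    intro p hp
    have h1 : θ (comp θ p) ≤ comp θ p := by
      rw [comp, θ.map_sSup]
      apply iSup₂_le
      rintro q ⟨hq, h2⟩
      apply le_sSup
      refine ⟨atθ hq, ?_⟩
      rcases h2 with h2 | h2
      · exact Or.inr (perθ h2)
      · left
        have h3 := perθ h2
        rwa [hθ] at h3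
    apply le_antisymm h1
    have h2 := θ.monotone h1
    rwa [hθ] at h2
  apply hK L θ {p : L // IsAtom p} (fun p x => x ⊓ comp θ p.1) hθ
  · exact fun p x hx => (cls p.1 p.2).2.2 x hx
  · exact fun p x y _ _ => (cls p.1 p.2).2.1 x y
  · intro p x _
    show θ x ⊓ comp θ p.1 = θ (x ⊓ comp θ p.1)
    rw [map_inf, compθ p.1 p.2]
  · exact fun p x _ => inf_le_left
  · intro p x _
    show x ⊓ comp θ p.1 ⊓ comp θ p.1 = x ⊓ comp θ p.1
    rw [inf_assoc, inf_idem]
  · intro x hx
    rw [CompleteLattice.isCompactElement_iff_exists_le_sSup_of_le_sSup] at hx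
    have h1 : x ≤ sSup {a | IsAtom a ∧ a ≤ x} := by
      obtain ⟨s, hs, hsa⟩ := hat.isLUB_atoms x
      apply hs.2
      intro a ha
      exact le_sSup ⟨hsa a ha, hs.1 ha⟩
    obtain ⟨T, hTs, hle⟩ := hx _ h1
    refine ⟨T.attach.image (fun q => ⟨q.1, (hTs q.2).1⟩), ?_⟩
    refine hle.trans ?_
    apply Finset.sup_le
    intro q hq
    have h2 : (⟨q, (hTs hq).1⟩ : {p : L // IsAtom p}) ∈
        T.attach.image (fun q => (⟨q.1, (hTs q.2).1⟩ : {p : L // IsAtom p})) :=
      Finset.mem_image.2 ⟨⟨q, hq⟩, Finset.mem_attach _ _, rfl⟩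
    refine le_trans ?_ (Finset.le_sup (f := fun p : {p : L // IsAtom p} => x ⊓ comp θ p.1) h2)
    exact le_inf (hTs hq).2 (le_sSup ⟨(hTs hq).1, Or.inl (Or.inl rfl)⟩)
  · rintro ⟨p, hp⟩ x y _ _ hxe _ hlt hne
    have hxe' : x ≤ comp θ p := inf_eq_left.1 hxe
    by_contra hns
    obtain ⟨q, hq, hqx, hqs⟩ : ∃ q, IsAtom q ∧ q ≤ x ∧ θ q ≠ q := by
      by_contra hcon
      push Not at hcon
      apply hns
      have h1 : x ≤ θ x := by
        obtain ⟨s, hs, hsa⟩ := hat.isLUB_atoms x
        apply hs.2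
        intro a ha
        rw [← hcon a (hsa a ha) (hs.1 ha)]
        exact θ.monotone (hs.1 ha)
      apply le_antisymm _ h1
      have h2 := θ.monotone h1
      rwa [hθ] at h2
    have hqC := (cls p hp).1 q hq (hqx.trans hxe')
    have line : ∀ z : L, IsAtom z → θ z ≠ z → ∀ r, IsAtom r → Per z r → r ≤ z ⊔ θ z := by
      intro z hz hzθ r hr hzr
      rcases hzr with h | ⟨a, ha, h1, h2, h3⟩
      · rw [← h]
        exact le_sup_left
      · by_cases hzr : z = r
        · rw [← hzr]
          exact le_sup_left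
        · have h4 := hth (z ⊔ r) ⟨z, r, a, hz, hr, ha, hzr, h1.symm, h2.symm, rfl, h3⟩
          have h5 : θ z ≤ z ⊔ r := by
            rw [← h4]
            exact θ.monotone le_sup_left
          have h6 := atoms_line hz hr hzr hz (atθ hz) le_sup_left h5 hzθ.symm
          rw [h6]
          exact le_sup_right
    have hcomp : comp θ p ≤ q ⊔ θ q := by
      apply sSup_le
      rintro r ⟨hr, hrC⟩
      have h1 : Per q r ∨ Per (θ q) r := by
        rcases hqC with h1 | h1
        · rcases hrC with h2 | h2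
          · exact Or.inl (tr hq hp hr (sy hp hq h1) h2)
          · exact Or.inr (tr (atθ hq) (atθ hp) hr (sy (atθ hp) (atθ hq) (perθ h1)) h2)
        · rcases hrC with h2 | h2
          · right
            have h3 := perθ h1
            rw [hθ] at h3
            exact tr (atθ hq) hp hr (sy hp (atθ hq) h3) h2
          · exact Or.inl (tr hq (atθ hp) hr (sy (atθ hp) hq h1) h2)
      rcases h1 with h1 | h1
      · exact line q hq hqs r hr h1
      · have h2 := line (θ q) (atθ hq) (by
          rw [hθ]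
          exact hqs.symm) r hr h1
        rw [hθ, sup_comm] at h2
        exact h2
    have hcov : q ⋖ θ q ⊔ q := by
      have h1 : θ q ⊓ q = ⊥ := by
        rcases (atθ hq).le_iff.1 (inf_le_left : θ q ⊓ q ≤ θ q) with h | h
        · exact h
        · exfalso
          have h2 : θ q ≤ q := by
            rw [← h]
            exact inf_le_right
          rcases hq.le_iff.1 h2 with h3 | h3
          · exact (atθ hq).1 h3
          · exact hqs h3
      apply IsUpperModularLattice.covBy_sup_of_inf_covBy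
      rw [h1]
      exact bot_covBy_iff.2 (atθ hq)
    have hxle : x ≤ θ q ⊔ q := by
      rw [sup_comm]
      exact hxe'.trans hcomp
    rcases hcov.eq_or_eq hqx hxle with h | h
    · rw [h] at hlt
      rcases hq.le_iff.1 hlt.le with h2 | h2
      · exact hne h2
      · exact hlt.ne h2
    · apply hns
      rw [h, map_sup, hθ, sup_comm]

end MP81G
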