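import Mathlib
import Pool.Agent.Lib.MP_81b71e_al.Basic

/-!
# MP_81b71e_al, theorem K: definitions

Labels: join semilattices with `⊥` and an involution `sg`, in which every nonsymmetric element
(`sg t ≠ t`) is an atom. Spaces: sets with (pseudo) distances in a label semilattice,
`d y x = sg (d x y)`.
-/

set_option autoImplicit false

namespace MP81G

universe u v

/-- A label semilattice: a join semilattice with least element and an involutive automorphism `sg`
such that each `t` with `sg t ≠ t` is an atom. -/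
class Lab (V : Type u) extends SemilatticeSup V, OrderBot V where
  /-- the involution -/
  sg : V → V
  sg_sg : ∀ x : V, sg (sg x) = x
  sg_sup : ∀ x y : V, sg (x ⊔ y) = sg x ⊔ sg y
  atm : ∀ t : V, sg t ≠ t → ∀ s : V, s ≤ t → s = ⊥ ∨ s = t

export Lab (sg sg_sg sg_sup)

/-- Homomorphisms of label semilattices. -/
structure IsHom {V W : Type u} [Lab V] [Lab W] (F : V → W) : Prop where
  sup : ∀ x y, F (x ⊔ y) = F x ⊔ F y
  bot : F ⊥ = ⊥
  sg : ∀ x, F (Lab.sg x) = Lab.sg (F x)

/-- `d` is a (pseudo) distance on `X` with labels in `V`. -/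
structure IsSp {V : Type u} [Lab V] {X : Type v} (d : X → X → V) : Prop where
  self : ∀ x, d x x = ⊥
  symm : ∀ x y, d y x = sg (d x y)
  tri : ∀ x y z, d x z ≤ d x y ⊔ d y z

/-- The admissible types of points over the space `X`: `f u` is the distance from `u` to the new
point. One gate: `f u = d u w ⊔ s`. Two gates: `t = d c e` is nonsymmetric, `s ≤ t ⊔ sg t` and `f u`
is `sg t` if `d e u ≤ t`, and `d u c ⊔ s` otherwise. -/
def Ty {V : Type u} [Lab V] {X : Type u} (d : X → X → V) (f : X → V) : Prop :=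
  (∃ w s, ∀ u, f u = d u w ⊔ s) ∨
    ∃ c e s, sg (d c e) ≠ d c e ∧ s ≤ d c e ⊔ sg (d c e) ∧
      (∀ u, d e u ≤ d c e → f u = sg (d c e)) ∧ ∀ u, ¬ d e u ≤ d c e → f u = d u c ⊔ s

/-- A space `Y` (distance `D`) which can be glued to `X`; `f y u` is the distance from `u` to `y`. -/
structure IsTask {V : Type u} [Lab V] {X Y : Type u} (d : X → X → V) (D : Y → Y → V)
    (f : Y → X → V) : Prop where
  sp : IsSp D
  ty : ∀ y, Ty d (f y)
  st1 : ∀ y z u, f z u ≤ f y u ⊔ D y z
  st2 : ∀ y z u, D y z ≤ sg (f y u) ⊔ f z u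

/-- An increasing sequence of spaces. -/
structure Tower (V : Type u) [Lab V] where
  X : ℕ → Type u
  d : ∀ n, X n → X n → V
  j : ∀ n, X n → X (n + 1)
  sp : ∀ n, IsSp (d n)
  iso : ∀ n x y, d (n + 1) (j n x) (j n y) = d n x y

/-- `Z` (with the maps `e n`) is the limit of the tower (up to points at distance `⊥`). -/
structure IsLim {V : Type u} [Lab V] (T : Tower V) {Z : Type u} (D : Z → Z → V)
    (e : ∀ n, T.X n → Z) : Prop where
  sp : IsSp D
  iso : ∀ n x y, D (e n x) (e n y) = T.d n x y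
  comp : ∀ n x, D (e n x) (e (n + 1) (T.j n x)) = ⊥
  surj : ∀ z, ∃ n x, e n x = z

/-- A pseudo space over the algebraic lattice `L`, from which the lattice can be realized. -/
structure GSp {L : Type u} [CompleteLattice L] (θ : L ≃o L) {A : Type u} (d : A → A → L) : Prop where
  comp : ∀ x y, IsCompactElement (d x y)
  self : ∀ x, d x x = ⊥
  symm : ∀ x y, d y x = θ (d x y)
  tri : ∀ x y z, d x z ≤ d x y ⊔ d y z
  all : ∀ s, IsCompactElement s → ∃ x y, d x y = s
  gen : ∀ r : A → A → Prop, (∀ x y, d x y = ⊥ → r x y) → (∀ x y z, r x y → r y z → r x z) →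
    (∀ f : A → A, (∀ p q, d (f p) (f q) ≤ d p q) → ∀ x y, r x y → r (f x) (f y)) →
    ∀ (T : Finset (A × A)) (x y : A), (∀ p ∈ T, r p.1 p.2) → d x y ≤ T.sup (fun p => d p.1 p.2) →
      r x y

/-- `q` is equal to `p` or the line through `p` and `q` has a third point. -/
def Per {L : Type u} [Lattice L] [OrderBot L] (p q : L) : Prop :=
  p = q ∨ ∃ a, IsAtom a ∧ a ≠ p ∧ a ≠ q ∧ a ≤ p ⊔ q

/-- `r` is the join of two atoms and at least three atoms are below `r`. -/
def Thick {L : Type u} [Lattice L] [OrderBot L] (r : L) : Prop :=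
  ∃ a b c : L, IsAtom a ∧ IsAtom b ∧ IsAtom c ∧ a ≠ b ∧ a ≠ c ∧ b ≠ c ∧ r = a ⊔ b ∧ c ≤ r

/-- the join of the component of the atom `p` and of the component of `θ p` -/
noncomputable def comp {L : Type u} [CompleteLattice L] (θ : L ≃o L) (p : L) : L :=
  sSup {q | IsAtom q ∧ (Per p q ∨ Per (θ p) q)}

end MP81G
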