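import Pool.Agent.Lib.MP_81b71e_G.Spec

/-!
# Extension of maps to the limits of towers
-/

set_option autoImplicit false

namespace MP81G

universe u v

private theorem ext_mono {V : Type u} [Lab V] {x y : V} (h : x ≤ y) : sg x ≤ sg y := by
  rw [← sup_eq_right] at h ⊢
  rw [← sg_sup, h]

private theorem ext_bot {V : Type u} [Lab V] : sg (⊥ : V) = ⊥ := by
  refine le_bot_iff.1 ?_
  have h := ext_mono (bot_le : (⊥ : V) ≤ sg ⊥)
  rwa [sg_sg] at h

section Close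

variable {V : Type u} [Lab V] {X : Type v} {d : X → X → V}

private theorem ext_symm (h : IsSp d) {x y : X} (hxy : d x y = ⊥) : d y x = ⊥ := by
  rw [h.symm, hxy, ext_bot]

private theorem ext_trans (h : IsSp d) {x y z : X} (hxy : d x y = ⊥) (hyz : d y z = ⊥) :
    d x z = ⊥ := by
  have h1 := h.tri x y z
  rw [hxy, hyz, sup_bot_eq] at h1
  exact le_bot_iff.1 h1

private theorem ext_le (h : IsSp d) {x x' y y' : X} (hx : d x x' = ⊥) (hy : d y y' = ⊥) :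
    d x y ≤ d x' y' := by
  have h1 := h.tri x x' y
  have h2 := h.tri x' y' y
  rw [hx, bot_sup_eq] at h1
  rw [ext_symm h hy, sup_bot_eq] at h2
  exact h1.trans h2

private theorem ext_eq (h : IsSp d) {x x' y y' : X} (hx : d x x' = ⊥) (hy : d y y' = ⊥) :
    d x y = d x' y' :=
  le_antisymm (ext_le h hx hy) (ext_le h (ext_symm h hx) (ext_symm h hy))

end Close

private theorem ext_up {V : Type u} [Lab V] {T : Tower V} {Z : Type u} {D : Z → Z → V}
    {e : ∀ n, T.X n → Z} (hL : IsLim T D e) (m : ℕ) (y : T.X m) :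
    ∀ m', m ≤ m' → ∃ x : T.X m', D (e m y) (e m' x) = ⊥ := by
  intro m' hm
  induction m', hm using Nat.le_induction with
  | base => exact ⟨y, hL.sp.self _⟩
  | succ k _ ih =>
    obtain ⟨x, hx⟩ := ih
    exact ⟨T.j k x, ext_trans hL.sp hx (hL.comp k x)⟩

theorem tExt : S_Ext.{u} := by
  intro V W _ _ F hF T T' Z Z' D D' e e' hL hL' el n₀ g₀ h₀
  -- the maps
  let G : (n : ℕ) → {g : T.X (n₀ + n) → T'.X (n₀ + n + 1) //
      ∀ x y, T'.d (n₀ + n + 1) (g x) (g y) = F (T.d (n₀ + n) x y)} := fun n =>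
    Nat.rec (motive := fun n => {g : T.X (n₀ + n) → T'.X (n₀ + n + 1) //
      ∀ x y, T'.d (n₀ + n + 1) (g x) (g y) = F (T.d (n₀ + n) x y)}) ⟨g₀, h₀⟩
      (fun n g => ⟨(el (n₀ + n) g.1 g.2).choose, (el (n₀ + n) g.1 g.2).choose_spec.1⟩) n
  have hG : ∀ (n : ℕ) (x : T.X (n₀ + n)), T'.d (n₀ + n + 2) (T'.j (n₀ + n + 1) ((G n).1 x))
      ((G (n + 1)).1 (T.j (n₀ + n) x)) = ⊥ := fun n =>
    (el (n₀ + n) (G n).1 (G n).2).choose_spec.2
  -- representatives at later stages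
  have hC : ∀ (n : ℕ) (x : T.X (n₀ + n)) (m : ℕ), n ≤ m → ∃ x' : T.X (n₀ + m),
      D (e (n₀ + n) x) (e (n₀ + m) x') = ⊥ ∧
      D' (e' (n₀ + n + 1) ((G n).1 x)) (e' (n₀ + m + 1) ((G m).1 x')) = ⊥ := by
    intro n x m hm
    induction m, hm using Nat.le_induction with
    | base => exact ⟨x, hL.sp.self _, hL'.sp.self _⟩
    | succ k _ ih =>
      obtain ⟨x', h1, h2⟩ := ih
      refine ⟨T.j (n₀ + k) x', ext_trans hL.sp h1 (hL.comp _ x'), ext_trans hL'.sp h2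
        (ext_trans hL'.sp (hL'.comp (n₀ + k + 1) ((G k).1 x')) ?_)⟩
      have h3 := hL'.iso (n₀ + k + 2) (T'.j (n₀ + k + 1) ((G k).1 x'))
        ((G (k + 1)).1 (T.j (n₀ + k) x'))
      exact h3.trans (hG k x')
  -- consistency
  have hB : ∀ (n m : ℕ) (x : T.X (n₀ + n)) (y : T.X (n₀ + m)),
      D' (e' (n₀ + n + 1) ((G n).1 x)) (e' (n₀ + m + 1) ((G m).1 y)) =
        F (D (e (n₀ + n) x) (e (n₀ + m) y)) := by
    intro n m x y
    obtain ⟨x', hx1, hx2⟩ := hC n x (max n m) (le_max_left n m)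
    obtain ⟨y', hy1, hy2⟩ := hC m y (max n m) (le_max_right n m)
    rw [ext_eq hL'.sp hx2 hy2, ext_eq hL.sp hx1 hy1, hL'.iso, hL.iso]
    exact (G (max n m)).2 x' y'
  have hA : ∀ z : Z, ∃ (n : ℕ) (x : T.X (n₀ + n)), D z (e (n₀ + n) x) = ⊥ := by
    intro z
    obtain ⟨m, y, rfl⟩ := hL.surj z
    obtain ⟨x, hx⟩ := ext_up hL m y (n₀ + m) (Nat.le_add_left m n₀)
    exact ⟨m, x, hx⟩
  choose N x hx using hA
  refine ⟨fun z => e' (n₀ + N z + 1) ((G (N z)).1 (x z)), fun z w => ?_, fun y => ?_⟩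
  · rw [hB, ← ext_eq hL.sp (hx z) (hx w)]
  · have h1 := hB (N (e n₀ y)) 0 (x (e n₀ y)) y
    refine h1.trans ?_
    have h2 : D (e (n₀ + N (e n₀ y)) (x (e n₀ y))) (e (n₀ + 0) y) = ⊥ :=
      ext_symm hL.sp (hx (e n₀ y))
    rw [h2, hF.bot]

end MP81G
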