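import Pool.Agent.Lib.MP_81b71e_G.Spec

/-!
# MP_81b71e_al, theorem K: the limit of a tower
-/

set_option autoImplicit false

namespace MP81G

universe u

namespace LimAux

variable {V : Type u} [Lab V] (T : Tower V)

/-- the iterated map -/
def U {n m : ℕ} (h : n ≤ m) (x : T.X n) : T.X m :=
  Nat.leRecOn h (fun {k} => T.j k) x

theorem U_self {n : ℕ} (x : T.X n) : U T (le_refl n) x = x := Nat.leRecOn_self x

theorem U_succ {n m : ℕ} (h : n ≤ m) (h' : n ≤ m + 1) (x : T.X n) :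
    U T h' x = T.j m (U T h x) := Nat.leRecOn_succ h x

theorem U_trans {n m k : ℕ} (h1 : n ≤ m) (h2 : m ≤ k) (x : T.X n) :
    U T (h1.trans h2) x = U T h2 (U T h1 x) := Nat.leRecOn_trans h1 h2 x

theorem U_iso {n m : ℕ} (h : n ≤ m) (x y : T.X n) : T.d m (U T h x) (U T h y) = T.d n x y := by
  induction m, h using Nat.le_induction with
  | base => rw [U_self, U_self]
  | succ m hm ih => rw [U_succ T hm, U_succ T hm, T.iso, ih]

/-- the distance of the limit -/
def D (z w : Σ n, T.X n) : V :=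
  T.d (max z.1 w.1) (U T (le_max_left _ _) z.2) (U T (le_max_right _ _) w.2)

theorem D_eq (z w : Σ n, T.X n) (k : ℕ) (h1 : z.1 ≤ k) (h2 : w.1 ≤ k) :
    D T z w = T.d k (U T h1 z.2) (U T h2 w.2) := by
  have h3 : max z.1 w.1 ≤ k := max_le h1 h2
  unfold D
  rw [← U_iso T h3, ← U_trans, ← U_trans]

end LimAux

open LimAux in
/-- **The limit of a tower.** -/
theorem tLim : S_Lim.{u} := by
  intro V _ T
  refine ⟨Σ n, T.X n, D T, fun n x => ⟨n, x⟩, ⟨⟨?_, ?_, ?_⟩, ?_, ?_, ?_⟩⟩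
  · intro z
    exact (T.sp _).self _
  · intro z w
    rw [D_eq T w z (max z.1 w.1) (le_max_right _ _) (le_max_left _ _),
      D_eq T z w (max z.1 w.1) (le_max_left _ _) (le_max_right _ _)]
    exact (T.sp _).symm _ _
  · intro z w v
    have hz : z.1 ≤ max z.1 (max w.1 v.1) := le_max_left _ _
    have hw : w.1 ≤ max z.1 (max w.1 v.1) := (le_max_left _ _).trans (le_max_right _ _)
    have hv : v.1 ≤ max z.1 (max w.1 v.1) := (le_max_right _ _).trans (le_max_right _ _)
    rw [D_eq T z v _ hz hv, D_eq T z w _ hz hw, D_eq T w v _ hw hv]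
    exact (T.sp _).tri _ _ _
  · intro n x y
    rw [D_eq T ⟨n, x⟩ ⟨n, y⟩ n le_rfl le_rfl, U_iso]
  · intro n x
    rw [D_eq T ⟨n, x⟩ ⟨n + 1, T.j n x⟩ (n + 1) (Nat.le_succ n) le_rfl, U_self,
      U_succ T (le_refl n), U_self]
    exact (T.sp _).self _
  · intro z
    exact ⟨z.1, z.2, rfl⟩

end MP81G
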