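import Pool.Agent.Lib.MP_81b71e_G.Spec

set_option autoImplicit false

namespace MP81G

universe u

private theorem sg_mono' {V : Type u} [Lab V] {x y : V} (h : x ≤ y) : sg x ≤ sg y := by
  rw [← sup_eq_right] at h ⊢
  rw [← sg_sup, h]

theorem tLnk : S_Lnk := by
  intro V X _ d hd I Λ hdiag hsy hcl hlst
  have H : ∀ i j x y, ∃ l ∈ Λ i j, ∀ m ∈ Λ i j,
      d x l.1 ⊔ l.2.1 ⊔ d l.2.2 y ≤ d x m.1 ⊔ m.2.1 ⊔ d m.2.2 y := by
    intro i j x y
    by_cases hij : i = j
    · subst hij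
      refine ⟨(x, ⊥, x), (hdiag i _).2 ⟨rfl, rfl⟩, ?_⟩
      intro m hm
      obtain ⟨h1, h2⟩ := (hdiag i m).1 hm
      simp only [h1, h2, hd.self, sup_bot_eq, bot_sup_eq]
      exact hd.tri x m.2.2 y
    · exact hlst i j hij x y
  choose l hl hmin using H
  have hdd : ∀ i x y, d x (l i i x y).1 ⊔ (l i i x y).2.1 ⊔ d (l i i x y).2.2 y = d x y := by
    intro i x y
    obtain ⟨h1, h2⟩ := (hdiag i _).1 (hl i i x y)
    apply le_antisymm
    · have := hmin i i x y (x, ⊥, x) ((hdiag i _).2 ⟨rfl, rfl⟩)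
      simpa only [hd.self, sup_bot_eq, bot_sup_eq] using this
    · rw [h1, h2, sup_bot_eq]
      exact hd.tri x _ y
  have hval : ∀ i j x y, ∀ m ∈ Λ i j, d x (l i j x y).1 ⊔ (l i j x y).2.1 ⊔ d (l i j x y).2.2 y ≤
      d x m.1 ⊔ m.2.1 ⊔ d m.2.2 y := hmin
  have hrev : ∀ i j x y, d y (l j i y x).1 ⊔ (l j i y x).2.1 ⊔ d (l j i y x).2.2 x ≤
      sg (d x (l i j x y).1 ⊔ (l i j x y).2.1 ⊔ d (l i j x y).2.2 y) := by
    intro i j x y
    have h1 := hmin j i y x _ (hsy i j _ (hl i j x y))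
    refine h1.trans (le_of_eq ?_)
    simp only [sg_sup, ← hd.symm]
    rw [sup_comm, sup_comm (d y _), ← sup_assoc]
  refine ⟨fun p q => d p.1 (l p.2 q.2 p.1 q.1).1 ⊔ (l p.2 q.2 p.1 q.1).2.1 ⊔
    d (l p.2 q.2 p.1 q.1).2.2 q.1, ⟨?_, ?_, ?_⟩, ?_, ?_⟩
  · rintro ⟨x, i⟩
    exact (hdd i x x).trans (hd.self x)
  · rintro ⟨x, i⟩ ⟨y, j⟩
    apply le_antisymm
    · exact hrev i j x y
    · have := sg_mono' (hrev j i y x)
      rwa [sg_sg] at this
  · rintro ⟨x, i⟩ ⟨y, j⟩ ⟨z, k⟩
    change d x (l i k x z).1 ⊔ (l i k x z).2.1 ⊔ d (l i k x z).2.2 z ≤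
      (d x (l i j x y).1 ⊔ (l i j x y).2.1 ⊔ d (l i j x y).2.2 y) ⊔
        (d y (l j k y z).1 ⊔ (l j k y z).2.1 ⊔ d (l j k y z).2.2 z)
    by_cases hij : i = j
    · subst hij
      rw [hdd i x y]
      refine (hmin i k x z _ (hl i k y z)).trans ?_
      refine sup_le (sup_le ?_ ?_) ?_
      · exact (hd.tri x y _).trans (sup_le_sup_left (le_sup_left.trans le_sup_left) _)
      · exact le_sup_right.trans (le_sup_left.trans le_sup_right)
      · exact le_sup_right.trans le_sup_right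
    by_cases hjk : j = k
    · subst hjk
      rw [hdd j y z]
      refine (hmin i j x z _ (hl i j x y)).trans ?_
      refine sup_le (sup_le ?_ ?_) ?_
      · exact le_sup_left.trans (le_sup_left.trans le_sup_left)
      · exact le_sup_right.trans (le_sup_left.trans le_sup_left)
      · exact (hd.tri _ y z).trans (sup_le_sup_right le_sup_right _)
    · obtain ⟨n, hn, hle⟩ := hcl i j k hij hjk _ (hl i j x y) _ (hl j k y z)
      refine (hmin i k x z n hn).trans ?_
      have h1 : d x n.1 ≤ d x (l i j x y).1 ⊔ d (l i j x y).1 n.1 := hd.tri _ _ _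
      have h2 : d n.2.2 z ≤ d n.2.2 (l j k y z).2.2 ⊔ d (l j k y z).2.2 z := hd.tri _ _ _
      have h3 : d (l i j x y).2.2 (l j k y z).1 ≤ d (l i j x y).2.2 y ⊔ d y (l j k y z).1 :=
        hd.tri _ _ _
      have h4 : (l i j x y).2.1 ⊔ d (l i j x y).2.2 (l j k y z).1 ⊔ (l j k y z).2.1 ≤
          (d x (l i j x y).1 ⊔ (l i j x y).2.1 ⊔ d (l i j x y).2.2 y) ⊔
        (d y (l j k y z).1 ⊔ (l j k y z).2.1 ⊔ d (l j k y z).2.2 z) := by
        refine sup_le (sup_le ?_ ?_) ?_
        · exact le_sup_right.trans (le_sup_left.trans le_sup_left)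
        · refine h3.trans (sup_le ?_ ?_)
          · exact le_sup_right.trans le_sup_left
          · exact le_sup_left.trans (le_sup_left.trans le_sup_right)
        · exact le_sup_right.trans (le_sup_left.trans le_sup_right)
      have h5 := hle.trans h4
      refine sup_le (sup_le ?_ ?_) ?_
      · refine h1.trans (sup_le ?_ ?_)
        · exact le_sup_left.trans (le_sup_left.trans le_sup_left)
        · exact (le_sup_left.trans le_sup_left).trans h5
      · exact (le_sup_right.trans le_sup_left).trans h5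
      · refine h2.trans (sup_le ?_ ?_)
        · exact le_sup_right.trans h5
        · exact le_sup_right.trans le_sup_right
  · intro i x y
    exact hdd i x y
  · intro i j x y
    exact ⟨hmin i j x y, l i j x y, hl i j x y, rfl⟩

end MP81G
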