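import Pool.Agent.Lib.MP_81b71e_G.Spec

/-! The distance between two new points. -/

set_option autoImplicit false

namespace MP81G

universe u

private theorem sgm {V : Type u} [Lab V] {x y : V} (h : x ≤ y) : sg x ≤ sg y := by
  have h1 : x ⊔ y = y := sup_eq_right.2 h
  have h2 : sg x ⊔ sg y = sg y := by rw [← sg_sup, h1]
  exact sup_eq_right.1 h2

private theorem sgb {V : Type u} [Lab V] : sg (⊥ : V) = ⊥ := by
  have h1 : sg (⊥ : V) ≤ sg (sg (⊥ : V)) := sgm bot_le
  rw [sg_sg] at h1
  exact le_bot_iff.1 h1

private theorem lemA {V : Type u} [Lab V] {t x : V} (ht : sg t ≠ t) (hx : ¬ x ≤ t) :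
    sg (x ⊔ t) = x ⊔ t := by
  by_contra h
  rcases Lab.atm (x ⊔ t) h t le_sup_right with h1 | h1
  · exact ht (by rw [h1]; exact sgb)
  · exact hx (by rw [h1]; exact le_sup_left)

private theorem ns {V : Type u} [Lab V] {t : V} (ht : sg t ≠ t) : ¬ t ≤ sg t := by
  intro h
  have h5 := sgm h
  rw [sg_sg] at h5
  exact ht (le_antisymm h5 h)

private theorem ns' {V : Type u} [Lab V] {t : V} (ht : sg t ≠ t) : ¬ sg t ≤ t := by
  intro h
  have h5 := sgm h
  rw [sg_sg] at h5
  exact ht (le_antisymm h h5)

theorem tLst (h1 : S_Typ.{u}) : S_Lst.{u} := by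
  intro V X _ d hd f g hf hg
  obtain ⟨g1, g2⟩ := h1 V X d hd g hg
  rcases hf with ⟨w, s, hf⟩ | ⟨c, e, s, ht, hs, hP, hN⟩
  · refine ⟨w, fun v => ?_⟩
    rw [hf w, hf v, hd.self w, bot_sup_eq, sg_sup, ← hd.symm v w]
    refine sup_le (le_sup_right.trans le_sup_left) ?_
    exact (g1 w v).trans (sup_le (le_sup_left.trans le_sup_left) le_sup_right)
  · have he : f e = sg (d c e) := hP e (by rw [hd.self e]; exact bot_le)
    have hc : f c = s := by
      rw [hN c (by rw [hd.symm c e]; exact ns' ht), hd.self c, bot_sup_eq]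
    have key : ∀ v, d c e ⊔ g e ≤ sg (f v) ⊔ g v ∨ sg s ⊔ g c ≤ sg (f v) ⊔ g v := by
      intro v
      by_cases hv : d e v ≤ d c e
      · left
        rw [hP v hv, sg_sg]
        exact sup_le le_sup_left ((g1 e v).trans (sup_le_sup_right hv _))
      · right
        rw [hN v hv, sg_sup, ← hd.symm v c]
        refine sup_le (le_sup_right.trans le_sup_left) ?_
        exact (g1 c v).trans (sup_le (le_sup_left.trans le_sup_left) le_sup_right)
    have gc : g c ≤ d c e ⊔ g e := g1 c e
    by_cases hge : g e ≤ d c e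
    · have h3 : g c ≤ d c e := gc.trans (sup_le le_rfl hge)
      have h4 : g c = d c e := by
        rcases Lab.atm (d c e) ht (g c) h3 with h | h
        · exfalso
          have h5 := g2 c e
          rw [h, bot_sup_eq] at h5
          exact ns ht (h5.trans (sgm hge))
        · exact h
      have hAB : d c e ⊔ g e ≤ sg s ⊔ g c := by
        rw [h4]
        exact (sup_le le_rfl hge).trans le_sup_right
      refine ⟨e, fun v => ?_⟩
      rw [he, sg_sg]
      rcases key v with h | h
      · exact h
      · exact hAB.trans h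
    · have h6 := lemA ht hge
      have h7 : sg (d c e) ≤ g e ⊔ d c e := by
        rw [← h6, sg_sup]
        exact le_sup_right
      have hBA : sg s ⊔ g c ≤ d c e ⊔ g e := by
        refine sup_le ?_ gc
        have h8 := sgm hs
        rw [sg_sup, sg_sg] at h8
        refine h8.trans (sup_le ?_ le_sup_left)
        rw [sup_comm (d c e)]
        exact h7
      refine ⟨c, fun v => ?_⟩
      rw [hc]
      rcases key v with h | h
      · exact hBA.trans h
      · exact h

end MP81G
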