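import Pool.Agent.Lib.MP_81b71e_G.Spec

/-!
# Module Ngd: the gadget for a nonsymmetric label
-/

set_option autoImplicit false
set_option linter.unusedSimpArgs false

namespace MP81G

universe u

section basic

variable {V : Type u} [Lab V]

private theorem ng_mono {x y : V} (h : x ≤ y) : sg x ≤ sg y := by
  have h1 : x ⊔ y = y := sup_eq_right.2 h
  rw [← h1, sg_sup]
  exact le_sup_left

private theorem ng_le {x y : V} (h : x ≤ sg y) : sg x ≤ y := by
  have h1 := ng_mono h
  rwa [sg_sg] at h1

private theorem ng_A {x t : V} (ht : sg t ≠ t) (hx : ¬ x ≤ t) : sg (x ⊔ t) = x ⊔ t := by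
  by_contra h
  rcases Lab.atm (x ⊔ t) h t le_sup_right with h1 | h1
  · apply ht
    rw [h1]
    apply le_antisymm _ bot_le
    apply ng_le
    exact bot_le
  · apply hx
    rw [h1]
    exact le_sup_left

private theorem ng_A' {x t : V} (ht : sg t ≠ t) (hx : ¬ x ≤ t) : sg t ≤ x ⊔ t := by
  rw [← ng_A ht hx]
  exact ng_mono le_sup_right

variable {X : Type u} {d : X → X → V}

private theorem ng_B (hd : IsSp d) {c e u : X} (ht : sg (d c e) ≠ d c e) (hu : d e u ≤ d c e) :
    d c u = d c e := by
  have h1 : d c u ≤ d c e := (hd.tri c e u).trans (sup_le le_rfl hu)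
  rcases Lab.atm _ ht _ h1 with h2 | h2
  · exfalso
    apply ht
    have h3 : d c e ≤ sg (d c e) := by
      refine (hd.tri c u e).trans ?_
      rw [h2, bot_sup_eq, hd.symm e u]
      exact ng_mono hu
    exact le_antisymm (ng_le h3) h3
  · exact h2

private theorem ng_B' (hd : IsSp d) {c e u : X} (ht : sg (d c e) ≠ d c e) (hu : d e u ≤ d c e) :
    d u c = sg (d c e) := by
  rw [hd.symm c u, ng_B hd ht hu]

/-- comparison of the two links -/
private theorem ng_two (hd : IsSp d) {a b c e : X} (ht : sg (d a b) ≠ d a b)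
    (hce : d c e = d a b) (x y : X) :
    (d e y ≤ d a b → d x b ≤ d a b → d x b ⊔ d a b ⊔ d e y ≤ d x a ⊔ d c y) ∧
      (¬ (d e y ≤ d a b ∧ d x b ≤ d a b) → d x a ⊔ d c y ≤ d x b ⊔ d a b ⊔ d e y) := by
  constructor
  · intro h1 h2
    have h3 : d c y = d a b := by
      rw [← hce]
      apply ng_B hd
      · rw [hce]
        exact ht
      · rw [hce]
        exact h1
    rw [h3]
    exact sup_le (sup_le (h2.trans le_sup_right) le_sup_right) (h1.trans le_sup_right)
  · intro h
    have h1 : sg (d a b) ≤ d x b ⊔ d a b ⊔ d e y := by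
      by_cases h2 : d e y ≤ d a b
      · have h3 : ¬ d x b ≤ d a b := fun h3 => h ⟨h2, h3⟩
        exact (ng_A' ht h3).trans le_sup_left
      · refine (ng_A' ht h2).trans ?_
        exact sup_le le_sup_right (le_sup_right.trans le_sup_left)
    apply sup_le
    · refine (hd.tri x b a).trans (sup_le (le_sup_left.trans le_sup_left) ?_)
      rw [hd.symm a b]
      exact h1
    · refine (hd.tri c e y).trans (sup_le ?_ le_sup_right)
      rw [hce]
      exact le_sup_right.trans le_sup_left

private theorem ng_two' (hd : IsSp d) {a b c e : X} (ht : sg (d a b) ≠ d a b)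
    (hce : d c e = d a b) (x y : X) :
    (d e y ≤ d a b → d x b ≤ d a b → d y e ⊔ sg (d a b) ⊔ d b x ≤ d y c ⊔ d a x) ∧
      (¬ (d e y ≤ d a b ∧ d x b ≤ d a b) → d y c ⊔ d a x ≤ d y e ⊔ sg (d a b) ⊔ d b x) := by
  obtain ⟨h1, h2⟩ := ng_two hd ht hce x y
  have e1 : d y e ⊔ sg (d a b) ⊔ d b x = sg (d x b ⊔ d a b ⊔ d e y) := by
    rw [sg_sup, sg_sup, ← hd.symm x b, ← hd.symm e y]
    ac_rfl
  have e2 : d y c ⊔ d a x = sg (d x a ⊔ d c y) := by
    rw [sg_sup, ← hd.symm, ← hd.symm c y, sup_comm]
  rw [e1, e2]
  exact ⟨fun h3 h4 => ng_mono (h1 h3 h4), fun h3 => ng_mono (h2 h3)⟩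

/-- the type of a point of a copy -/
private theorem ng_ty (hd : IsSp d) {a b c e : X} (ht : sg (d a b) ≠ d a b)
    (hce : d c e = d a b) (y : X) (f : X → V) (h1 : ∀ u, f u ≤ d u c ⊔ d a y)
    (h2 : ∀ u, f u ≤ d u e ⊔ sg (d a b) ⊔ d b y)
    (h3 : ∀ u, f u = d u c ⊔ d a y ∨ f u = d u e ⊔ sg (d a b) ⊔ d b y) : Ty d f := by
  have key : ∀ u, ¬ (d e u ≤ d a b ∧ d y b ≤ d a b) → f u = d u c ⊔ d a y := by
    intro u hu
    have h4 := (ng_two' hd ht hce y u).2 hu
    rcases h3 u with h5 | h5
    · exact h5
    · exact le_antisymm (h1 u) (h4.trans h5.ge)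
  by_cases hy : d y b ≤ d a b
  · right
    refine ⟨c, e, d a y, ?_, ?_, ?_, ?_⟩
    · rw [hce]
      exact ht
    · rw [hce]
      refine (hd.tri a b y).trans (sup_le_sup le_rfl ?_)
      rw [hd.symm y b]
      exact ng_mono hy
    · intro u hu
      rw [hce] at hu ⊢
      have h4 : d u c = sg (d a b) := by
        rw [← hce]
        apply ng_B' hd
        · rw [hce]
          exact ht
        · rw [hce]
          exact hu
      have h5 : d u e ⊔ sg (d a b) ⊔ d b y = sg (d a b) := by
        apply le_antisymm
        · refine sup_le (sup_le ?_ le_rfl) ?_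
          · rw [hd.symm e u]
            exact ng_mono hu
          · rw [hd.symm y b]
            exact ng_mono hy
        · exact le_sup_right.trans le_sup_left
      apply le_antisymm
      · exact (h2 u).trans h5.le
      · rcases h3 u with h6 | h6
        · rw [h6, h4]
          exact le_sup_left
        · rw [h6, h5]
    · intro u hu
      rw [hce] at hu
      exact key u (fun h => hu h.1)
  · left
    exact ⟨c, d a y, fun u => key u (fun h => hy h.2)⟩

end basic

/-- the links -/
private inductive NL {V X : Type u} [Lab V] (a b c e : X) (t : V) :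
    Fin 3 → Fin 3 → X × V × X → Prop
  | dg (i : Fin 3) (x : X) : NL a b c e t i i (x, ⊥, x)
  | l01 : NL a b c e t 0 1 (b, ⊥, a)
  | l10 : NL a b c e t 1 0 (a, ⊥, b)
  | l02 : NL a b c e t 0 2 (a, ⊥, c)
  | l02' : NL a b c e t 0 2 (b, t, e)
  | l20 : NL a b c e t 2 0 (c, ⊥, a)
  | l20' : NL a b c e t 2 0 (e, sg t, b)
  | l12 : NL a b c e t 1 2 (b, ⊥, e)
  | l12' : NL a b c e t 1 2 (a, sg t, c)
  | l21 : NL a b c e t 2 1 (e, ⊥, b)
  | l21' : NL a b c e t 2 1 (c, t, a)

theorem tNgd (hL : S_Lnk.{u}) : S_Ngd.{u} := by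
  intro V X _ d hd a b c e ht hce
  have sb : sg (⊥ : V) = ⊥ := le_antisymm (ng_le bot_le) bot_le
  have hba : d b a = sg (d a b) := hd.symm a b
  have hec : d e c = sg (d a b) := by rw [hd.symm c e, hce]
  have hst : sg (d b a) ≠ d b a := by
    rw [hba, sg_sg]
    exact ht.symm
  have hecb : d e c = d b a := by rw [hec, hba]
  set t := d a b with htdef
  obtain ⟨D, hD, hDd, hDl⟩ := hL V X d hd (Fin 3) (fun i j => {l | NL a b c e t i j l})
    (by
      rintro i ⟨x, w, y⟩
      constructor
      · intro h
        cases h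
        exact ⟨rfl, rfl⟩
      · rintro ⟨h1, h2⟩
        simp only at h1 h2
        subst h1 h2
        exact NL.dg i x)
    (by
      rintro i j l h
      cases h with
      | dg x =>
        simp only [sb]
        exact NL.dg _ _
      | l01 => simp only [sb]; exact NL.l10
      | l10 => simp only [sb]; exact NL.l01
      | l02 => simp only [sb]; exact NL.l20
      | l02' => exact NL.l20'
      | l20 => simp only [sb]; exact NL.l02
      | l20' => simp only [sg_sg]; exact NL.l02'
      | l12 => simp only [sb]; exact NL.l21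
      | l12' => simp only [sg_sg]; exact NL.l21'
      | l21 => simp only [sb]; exact NL.l12
      | l21' => exact NL.l12')
    (by
      intro i j k hij hjk l hl m hm
      cases hl with
      | dg x => exact absurd rfl hij
      | l01 =>
        cases hm with
        | dg x => exact absurd rfl hjk
        | l10 => exact ⟨_, NL.dg 0 b, by simp [hd.self]⟩
        | l12 => exact ⟨_, NL.l02', by simp [hd.self, htdef]⟩
        | l12' => exact ⟨_, NL.l02, by simp [hd.self, hba]⟩
      | l10 =>
        cases hm with
        | dg x => exact absurd rfl hjk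
        | l01 => exact ⟨_, NL.dg 1 a, by simp [hd.self]⟩
        | l02 => exact ⟨_, NL.l12', by simp [hd.self, hba]⟩
        | l02' => exact ⟨_, NL.l12, by simp [hd.self, ← htdef]⟩
      | l02 =>
        cases hm with
        | dg x => exact absurd rfl hjk
        | l20 => exact ⟨_, NL.dg 0 a, by simp [hd.self]⟩
        | l20' => exact ⟨_, NL.dg 0 a, by simp [hd.self, hce, ← htdef]⟩
        | l21 => exact ⟨_, NL.l01, by simp [hd.self, hce, ← htdef]⟩
        | l21' => exact ⟨_, NL.l01, by simp [hd.self, hce, ← htdef]⟩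
      | l02' =>
        cases hm with
        | dg x => exact absurd rfl hjk
        | l20 => exact ⟨_, NL.dg 0 b, by simp [hd.self, hec, hba]⟩
        | l20' => exact ⟨_, NL.dg 0 b, by simp [hd.self]⟩
        | l21 => exact ⟨_, NL.l01, by simp [hd.self, ← htdef]⟩
        | l21' => exact ⟨_, NL.l01, by simp [hd.self, ← htdef]⟩
      | l20 =>
        cases hm with
        | dg x => exact absurd rfl hjk
        | l01 => exact ⟨_, NL.l21', by simp [hd.self, ← htdef]⟩
        | l02 => exact ⟨_, NL.dg 2 c, by simp [hd.self]⟩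
        | l02' => exact ⟨_, NL.dg 2 c, by simp [hd.self, hce, ← htdef]⟩
      | l20' =>
        cases hm with
        | dg x => exact absurd rfl hjk
        | l01 => exact ⟨_, NL.l21, by simp [hd.self, hba]⟩
        | l02 => exact ⟨_, NL.dg 2 e, by simp [hd.self, hec, hba]⟩
        | l02' => exact ⟨_, NL.dg 2 e, by simp [hd.self]⟩
      | l12 =>
        cases hm with
        | dg x => exact absurd rfl hjk
        | l20 => exact ⟨_, NL.l10, by simp [hd.self, hec, hba]⟩
        | l20' => exact ⟨_, NL.l10, by simp [hd.self, hec, hba]⟩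
        | l21 => exact ⟨_, NL.dg 1 b, by simp [hd.self]⟩
        | l21' => exact ⟨_, NL.dg 1 b, by simp [hd.self, hec, hba]⟩
      | l12' =>
        cases hm with
        | dg x => exact absurd rfl hjk
        | l20 => exact ⟨_, NL.l10, by simp [hd.self, hec, hba]⟩
        | l20' => exact ⟨_, NL.l10, by simp [hd.self, hec, hba]⟩
        | l21 => exact ⟨_, NL.dg 1 a, by simp [hd.self, hce, ← htdef]⟩
        | l21' => exact ⟨_, NL.dg 1 a, by simp [hd.self]⟩
      | l21 =>
        cases hm with
        | dg x => exact absurd rfl hjk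
        | l10 => exact ⟨_, NL.l20', by simp [hd.self, hba]⟩
        | l12 => exact ⟨_, NL.dg 2 e, by simp [hd.self]⟩
        | l12' => exact ⟨_, NL.dg 2 e, by simp [hd.self, hec, hba]⟩
      | l21' =>
        cases hm with
        | dg x => exact absurd rfl hjk
        | l10 => exact ⟨_, NL.l20, by simp [hd.self, ← htdef]⟩
        | l12 => exact ⟨_, NL.dg 2 c, by simp [hd.self, hce, ← htdef]⟩
        | l12' => exact ⟨_, NL.dg 2 c, by simp [hd.self]⟩)
    (by
      intro i j hij x y
      fin_cases i <;> fin_cases j
      · exact absurd rfl hij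
      · refine ⟨_, NL.l01, ?_⟩
        intro m hm
        cases hm
        exact le_rfl
      · obtain ⟨q1, q2⟩ := ng_two hd ht hce x y
        by_cases h : d e y ≤ t ∧ d x b ≤ t
        · refine ⟨_, NL.l02', ?_⟩
          intro m hm
          cases hm
          · simpa using q1 h.1 h.2
          · exact le_rfl
        · refine ⟨_, NL.l02, ?_⟩
          intro m hm
          cases hm
          · exact le_rfl
          · simpa using q2 h
      · refine ⟨_, NL.l10, ?_⟩
        intro m hm
        cases hm
        exact le_rfl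
      · exact absurd rfl hij
      · obtain ⟨q1, q2⟩ := ng_two hd hst hecb x y
        by_cases h : d c y ≤ d b a ∧ d x a ≤ d b a
        · refine ⟨_, NL.l12', ?_⟩
          intro m hm
          cases hm
          · simpa [← hba] using q1 h.1 h.2
          · exact le_rfl
        · refine ⟨_, NL.l12, ?_⟩
          intro m hm
          cases hm
          · exact le_rfl
          · simpa [← hba] using q2 h
      · obtain ⟨q1, q2⟩ := ng_two' hd ht hce y x
        by_cases h : d e x ≤ t ∧ d y b ≤ t
        · refine ⟨_, NL.l20', ?_⟩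
          intro m hm
          cases hm
          · simpa using q1 h.1 h.2
          · exact le_rfl
        · refine ⟨_, NL.l20, ?_⟩
          intro m hm
          cases hm
          · exact le_rfl
          · simpa using q2 h
      · obtain ⟨q1, q2⟩ := ng_two' hd hst hecb y x
        by_cases h : d c x ≤ d b a ∧ d y a ≤ d b a
        · refine ⟨_, NL.l21', ?_⟩
          intro m hm
          cases hm
          · simpa [← hd.symm, ← htdef] using q1 h.1 h.2
          · exact le_rfl
        · refine ⟨_, NL.l21, ?_⟩
          intro m hm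
          cases hm
          · exact le_rfl
          · simpa [← hd.symm, ← htdef] using q2 h
      · exact absurd rfl hij)
  -- the distances
  let r : Fin 3 → Fin 3 := ![0, 1, 1]
  refine ⟨fun p q => D (p.1, r p.2) (q.1, r q.2), fun p u => D (u, 2) (p.1, r p.2), ?_, ?_, ?_, ?_,
    ?_⟩
  · have h0 : ∀ y, Ty d (fun u => D (u, 2) (y, 0)) := by
      intro y
      apply ng_ty hd ht hce y
      · intro u
        have h1 := (hDl 2 0 u y).1 _ NL.l20
        simpa using h1
      · intro u
        exact (hDl 2 0 u y).1 _ NL.l20'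
      · intro u
        obtain ⟨l, hl, h1⟩ := (hDl 2 0 u y).2
        cases hl
        · left
          simpa using h1
        · right
          exact h1
    have h1 : ∀ y, Ty d (fun u => D (u, 2) (y, 1)) := by
      intro y
      apply ng_ty hd hst hecb y
      · intro u
        have h1 := (hDl 2 1 u y).1 _ NL.l21
        simpa using h1
      · intro u
        have h1 := (hDl 2 1 u y).1 _ NL.l21'
        simpa [← hd.symm, ← htdef] using h1
      · intro u
        obtain ⟨l, hl, h1⟩ := (hDl 2 1 u y).2
        cases hl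
        · left
          simpa using h1
        · right
          simpa [← hd.symm, ← htdef] using h1
    refine ⟨⟨fun x => hD.self _, fun x y => hD.symm _ _, fun x y z => hD.tri _ _ _⟩, ?_, ?_, ?_⟩
    · rintro ⟨y, i⟩
      fin_cases i
      · exact h0 y
      · exact h1 y
      · exact h1 y
    · intro y z u
      exact hD.tri _ _ _
    · intro y z u
      have h2 := hD.tri (y.1, r y.2) (u, 2) (z.1, r z.2)
      rw [hD.symm (u, 2) (y.1, r y.2)] at h2
      exact h2
  · intro i x y
    exact hDd _ _ _
  · have h1 := (hDl 2 0 c a).1 _ NL.l20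
    have h2 : D (c, 2) (a, 0) = ⊥ := by simpa [hd.self] using h1
    exact h2
  · have h1 := (hDl 0 1 b a).1 _ NL.l01
    have h2 : D (b, 0) (a, 1) = ⊥ := by simpa [hd.self] using h1
    exact h2
  · have h1 := (hDl 2 1 e b).1 _ NL.l21
    have h2 : D (e, 2) (b, 1) = ⊥ := by simpa [hd.self] using h1
    exact h2

end MP81G
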