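import Pool.Agent.Lib.MP_81b71e_G.Spec

/-!
# MP_81b71e_al, theorem K: atoms below a join
-/

set_option autoImplicit false

namespace MP81G

theorem tPr : S_Pr := by
  intro L _ _ _ _ p x y hp hle
  by_cases hx : p ≤ x
  · exact Or.inl hx
  by_cases hy : p ≤ y
  · exact Or.inr (Or.inl hy)
  refine Or.inr (Or.inr ?_)
  have key : ∀ a b c : L, IsAtom a → ¬ c ≤ b → b ⊔ c ≤ b ⊔ a → a ≤ b ⊔ c := by
    intro a b c ha hcb hle'
    by_contra hn
    have h1 : a ⊓ (b ⊔ c) = ⊥ := by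
      rcases ha.le_iff.1 (inf_le_left : a ⊓ (b ⊔ c) ≤ a) with h | h
      · exact h
      · exact absurd (inf_eq_left.1 h) hn
    have h2 : (b ⊔ a) ⊓ (b ⊔ c) = b ⊔ a ⊓ (b ⊔ c) := sup_inf_assoc_of_le a le_sup_left
    rw [h1, sup_bot_eq, inf_eq_right.2 hle'] at h2
    exact hcb (by rw [← h2]; exact le_sup_right)
  have h1 : (x ⊔ y) ⊓ (p ⊔ x) = x ⊔ y ⊓ (p ⊔ x) := sup_inf_assoc_of_le y le_sup_right
  rw [inf_eq_right.2 (sup_le hle le_sup_left)] at h1
  have h2 : ¬ y ⊓ (p ⊔ x) ≤ x := by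
    intro h
    rw [sup_eq_left.2 h] at h1
    exact hx (by rw [← h1]; exact le_sup_left)
  rw [le_iff_atom_le_imp] at h2
  push Not at h2
  obtain ⟨r, hr, hrz, hrx⟩ := h2
  have hry : r ≤ y := hrz.trans inf_le_left
  have hrp : r ≤ p ⊔ x := hrz.trans inf_le_right
  have hpr : p ≤ x ⊔ r := key p x r hp hrx (sup_le le_sup_left (by rw [sup_comm]; exact hrp))
  have h3 : (r ⊔ x) ⊓ (p ⊔ r) = r ⊔ x ⊓ (p ⊔ r) := sup_inf_assoc_of_le x le_sup_right
  rw [inf_eq_right.2 (sup_le (by rw [sup_comm]; exact hpr) le_sup_left)] at h3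
  have h4 : x ⊓ (p ⊔ r) ≠ ⊥ := by
    intro h
    rw [h, sup_bot_eq] at h3
    exact hy ((le_sup_left.trans h3.le).trans hry)
  obtain ⟨q, hq, hqw⟩ := (eq_bot_or_exists_atom_le (x ⊓ (p ⊔ r))).resolve_left h4
  refine ⟨q, r, hq, hr, hqw.trans inf_le_left, hry, ?_⟩
  have hqr : ¬ q ≤ r := by
    intro h
    rcases hr.le_iff.1 h with h5 | h5
    · exact hq.1 h5
    · exact hrx (by rw [← h5]; exact hqw.trans inf_le_left)
  have h6 := key p r q hp hqr (sup_le le_sup_left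
    (by rw [sup_comm]; exact hqw.trans inf_le_right))
  rw [sup_comm]
  exact h6

end MP81G
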