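import Pool.Agent.Lib.MP_81b71e_G.Spec

/-!
# MP_81b71e_al, theorem K, module Tra: perspectivity of atoms is transitive (helper84)
-/

set_option autoImplicit false

namespace MP81G

universe u

namespace TraAux

variable {L : Type u} [Lattice L] [OrderBot L]

theorem eq_of_le {a b : L} (ha : IsAtom a) (hb : IsAtom b) (h : a ≤ b) : a = b :=
  (hb.le_iff.1 h).resolve_left ha.1

theorem cov [IsModularLattice L] {x b : L} (hb : IsAtom b) (h : ¬ b ≤ x) : x ⋖ x ⊔ b := by
  apply covBy_sup_of_inf_covBy_right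
  have h1 : x ⊓ b = ⊥ := by
    rcases hb.le_iff.1 (inf_le_right : x ⊓ b ≤ b) with h1 | h1
    · exact h1
    · exact absurd (inf_eq_right.1 h1) h
  rw [h1]
  exact bot_covBy_iff.2 hb

/-- the exchange property -/
theorem exch [IsModularLattice L] {x a b : L} (hb : IsAtom b) (h : a ≤ x ⊔ b)
    (hax : ¬ a ≤ x) : x ⊔ a = x ⊔ b := by
  have hbx : ¬ b ≤ x := fun h1 => hax (h.trans (sup_le le_rfl h1))
  rcases (cov hb hbx).eq_or_eq (le_sup_left : x ≤ x ⊔ a) (sup_le le_sup_left h) with h1 | h1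
  · exact absurd (sup_eq_left.1 h1) hax
  · exact h1

theorem exch' [IsModularLattice L] {x a b : L} (hx : IsAtom x) (ha : IsAtom a) (hb : IsAtom b)
    (h : a ≤ x ⊔ b) (hax : a ≠ x) : x ⊔ a = x ⊔ b :=
  exch hb h fun h1 => hax (eq_of_le ha hx h1)

end TraAux

open TraAux in
/-- **Tra** -/
theorem tTra (h1 : S_Pr.{u}) : S_Tra.{u} := by
  intro L _ _ _ _ p q r hp hq hr
  refine ⟨?_, ?_⟩
  · rintro (h | ⟨a, ha, hap, haq, hle⟩)
    · exact Or.inl h.symm
    · exact Or.inr ⟨a, ha, haq, hap, by rwa [sup_comm]⟩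
  · intro hpq hqr
    by_cases hpr : p = r
    · exact Or.inl hpr
    right
    rcases hpq with rfl | ⟨a, ha, hap, haq, hal⟩
    · exact hqr.resolve_left hpr
    rcases hqr with rfl | ⟨b, hb, hbq, hbr, hbl⟩
    · exact ⟨a, ha, hap, haq, hal⟩
    by_cases hq1 : q = p
    · exact ⟨b, hb, fun h => hbq (h.trans hq1.symm), hbr, by rwa [hq1] at hbl⟩
    by_cases hq2 : q = r
    · exact ⟨a, ha, hap, fun h => haq (h.trans hq2.symm), by rwa [hq2] at hal⟩
    by_cases hl : q ⊔ p = q ⊔ r
    · have h2 : r ≤ p ⊔ q := by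
        rw [sup_comm p q, hl]
        exact le_sup_right
      have h3 := exch' hp hr hq h2 (Ne.symm hpr)
      exact ⟨q, hq, hq1, hq2, h3 ▸ le_sup_right⟩
    · have h2 : q ⊔ a = q ⊔ p := exch' hq ha hp (by rwa [sup_comm]) haq
      have h3 : r ⊔ b = r ⊔ q := exch' hr hb hq (by rwa [sup_comm]) hbr
      have h4 : p ≤ (a ⊔ b) ⊔ r := by
        have h5 : p ≤ q ⊔ a := h2 ▸ le_sup_right
        have h6 : q ≤ r ⊔ b := h3 ▸ le_sup_right
        refine h5.trans (sup_le (h6.trans (sup_le le_sup_right ?_)) ?_)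
        · exact le_sup_of_le_left le_sup_right
        · exact le_sup_of_le_left le_sup_left
      have h5 : ¬ p ≤ a ⊔ b := by
        intro h6
        have h7 : a ⊔ p = a ⊔ b := exch' ha hp hb h6 (Ne.symm hap)
        have h8 : b ≤ q ⊔ p := by
          have h9 : b ≤ a ⊔ p := h7 ▸ le_sup_right
          refine h9.trans (sup_le ?_ le_sup_right)
          rwa [sup_comm]
        have h9 : q ⊔ b = q ⊔ p := exch' hq hb hp h8 hbq
        have h10 : q ⊔ b = q ⊔ r := exch' hq hb hr hbl hbq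
        exact hl (h9.symm.trans h10)
      rcases h1 L p (a ⊔ b) r hp h4 with h6 | h6 | ⟨s, t, hs, ht, hsl, htr, hpst⟩
      · exact absurd h6 h5
      · exact absurd (eq_of_le hp hr h6) hpr
      · have h7 : t = r := eq_of_le ht hr htr
        rw [h7] at hpst
        have hps : p ≤ r ⊔ s := by rwa [sup_comm]
        have h8 : r ⊔ p = r ⊔ s := exch' hr hp hs hps hpr
        refine ⟨s, hs, ?_, ?_, ?_⟩
        · rintro rfl
          exact h5 hsl
        · rintro rfl
          rw [sup_idem] at hpst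
          exact hpr (eq_of_le hp hs hpst)
        · rw [sup_comm, h8]
          exact le_sup_right

end MP81G
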