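import Pool.Agent.Lib.MP_81b71e_G.Spec

/-!
# MP_81b71e_al, theorem K: transport of types (helper83)
-/

set_option autoImplicit false

namespace MP81G

universe u v

private theorem sg_mono {V : Type u} [Lab V] {x y : V} (h : x ≤ y) : Lab.sg x ≤ Lab.sg y := by
  have h1 : x ⊔ y = y := sup_eq_right.2 h
  rw [← h1, Lab.sg_sup]
  exact le_sup_left

private theorem le_of_sg {V : Type u} [Lab V] {x y : V} (h : Lab.sg x ≤ Lab.sg y) : x ≤ y := by
  have := sg_mono h
  rwa [Lab.sg_sg, Lab.sg_sg] at this

private theorem sg_bot {V : Type u} [Lab V] : Lab.sg (⊥ : V) = ⊥ := by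
  apply le_bot_iff.1
  have h : (⊥ : V) ≤ Lab.sg ⊥ := bot_le
  have := sg_mono h
  rwa [Lab.sg_sg] at this

/-- a nonsymmetric element is not below its image, in both directions -/
private theorem sg_not_le {V : Type u} [Lab V] {t : V} (ht : Lab.sg t ≠ t) : ¬ Lab.sg t ≤ t := by
  intro h
  apply ht
  refine le_antisymm h ?_
  have := sg_mono h
  rwa [Lab.sg_sg] at this

private theorem lemA {V : Type u} [Lab V] {t x : V} (ht : Lab.sg t ≠ t) (hx : ¬ x ≤ t) :
    Lab.sg (x ⊔ t) = x ⊔ t := by
  by_contra h
  rcases Lab.atm (x ⊔ t) h t le_sup_right with h1 | h1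
  · apply ht
    rw [h1, sg_bot]
  · apply hx
    rw [h1]
    exact le_sup_left

private theorem lemB {V : Type u} {X : Type v} [Lab V] {d : X → X → V} (hd : IsSp d) {c e u : X}
    (ht : Lab.sg (d c e) ≠ d c e) (hu : d e u ≤ d c e) : d u c = Lab.sg (d c e) := by
  have h1 : d c u ≤ d c e := (hd.tri c e u).trans (sup_le le_rfl hu)
  have h2 : d c u = d c e := by
    rcases Lab.atm (d c e) ht (d c u) h1 with h | h
    · exfalso
      have h3 : d c e ≤ Lab.sg (d c e) := by
        have h4 := hd.tri c u e
        rw [h, bot_sup_eq, hd.symm e u] at h4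
        exact h4.trans (sg_mono hu)
      have h5 := sg_mono h3
      rw [Lab.sg_sg] at h5
      exact sg_not_le ht h5
    · exact h
  rw [hd.symm c u, h2]

private theorem mono {V W : Type u} [Lab V] [Lab W] {F : V → W} (hF : IsHom F) {x y : V}
    (h : x ≤ y) : F x ≤ F y := by
  have h1 : x ⊔ y = y := sup_eq_right.2 h
  rw [← h1, hF.sup]
  exact le_sup_left

theorem tTrn : S_Trn.{u} := by
  classical
  intro V W X Y _ _ F hF d d' hd hd' g hg f hf
  rcases hf with ⟨w, s, hf⟩ | ⟨c, e, s, ht, hs, hf1, hf2⟩
  · -- one gate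
    refine ⟨fun u' => d' u' (g w) ⊔ F s, Or.inl ⟨g w, F s, fun _ => rfl⟩, fun u => ?_,
      fun u' => ⟨w, ?_⟩⟩
    · rw [hf, hF.sup]
      change d' (g u) (g w) ⊔ F s = _
      rw [hg]
    · have : f w = s := by
        rw [hf, hd.self, bot_sup_eq]
      rw [this]
  · have hc : ¬ d e c ≤ d c e := by
      rw [hd.symm c e]
      exact sg_not_le ht
    have hfc : f c = s := by
      rw [hf2 c hc, hd.self, bot_sup_eq]
    have hs' : F s ≤ F (d c e) ⊔ Lab.sg (F (d c e)) := by
      have := mono hF hs
      rwa [hF.sup, hF.sg] at this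
    by_cases ht' : Lab.sg (F (d c e)) = F (d c e)
    · refine ⟨fun u' => d' u' (g c) ⊔ F s, Or.inl ⟨g c, F s, fun _ => rfl⟩, fun u => ?_,
        fun u' => ⟨c, ?_⟩⟩
      · change d' (g u) (g c) ⊔ F s = _
        rw [hg]
        by_cases hu : d e u ≤ d c e
        · rw [hf1 u hu, lemB hd ht hu, hF.sg, ht']
          rw [ht', sup_idem] at hs'
          exact sup_eq_left.2 hs'
        · rw [hf2 u hu, hF.sup]
      · rw [hfc]
    · refine ⟨fun u' => if d' (g e) u' ≤ F (d c e) then Lab.sg (F (d c e)) else
        d' u' (g c) ⊔ F s, Or.inr ⟨g c, g e, F s, ?_, ?_, fun u hu => ?_, fun u hu => ?_⟩,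
        fun u => ?_, fun u' => ?_⟩
      · rw [hg]
        exact ht'
      · rw [hg]
        exact hs'
      · rw [hg] at hu ⊢
        exact if_pos hu
      · rw [hg] at hu
        exact if_neg hu
      · by_cases hu : d e u ≤ d c e
        · have h1 : d' (g e) (g u) ≤ F (d c e) := by
            rw [hg]
            exact mono hF hu
          change (if d' (g e) (g u) ≤ F (d c e) then _ else _) = _
          rw [if_pos h1, hf1 u hu, hF.sg]
        · have h1 : ¬ d' (g e) (g u) ≤ F (d c e) := by
            intro h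
            rw [hg] at h
            apply ht'
            have h2 := congrArg F (lemA ht hu)
            rw [hF.sg, hF.sup, sup_eq_right.2 h] at h2
            exact h2
          change (if d' (g e) (g u) ≤ F (d c e) then _ else _) = _
          rw [if_neg h1, hf2 u hu, hF.sup, hg]
      · by_cases hu : d' (g e) u' ≤ F (d c e)
        · refine ⟨e, ?_⟩
          have h1 : f e = Lab.sg (d c e) := by
            apply hf1
            rw [hd.self]
            exact bot_le
          change (if d' (g e) u' ≤ F (d c e) then _ else _) = _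
          rw [if_pos hu, h1, hF.sg, hd'.symm (g e) u']
          exact (sup_eq_right.2 (sg_mono hu)).symm
        · refine ⟨c, ?_⟩
          change (if d' (g e) u' ≤ F (d c e) then _ else _) = _
          rw [if_neg hu, hfc]

end MP81G
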