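import Pool.Agent.Lib.MP_81b71e_G.Spec

/-!
# MP_81b71e_al, theorem K: the towers (`S_Twr`)
-/

set_option autoImplicit false

namespace MP81G

universe u

/-- The spaces of one stage, for all `i`. -/
private structure Stg (I : Type u) (V : I → Type u) [∀ i, Lab (V i)] where
  X : I → Type u
  d : ∀ i, X i → X i → V i
  sp : ∀ i, IsSp (d i)

private theorem stg_next (h1 : S_Amg.{u}) (I : Type u) (V : I → Type u) [∀ i, Lab (V i)]
    (S : Stg I V) : ∃ (S' : Stg I V) (j : ∀ i, S.X i → S'.X i),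
      (∀ i x y, S'.d i (j i x) (j i y) = S.d i x y) ∧
      (∀ i y, Ty (S.d i) (fun u => S'.d i (j i u) y)) ∧
      ∀ i (Y : Type u) (D : Y → Y → V i) (f : Y → S.X i → V i)
        (q : Y → (Σ k, S.X k) × Fin 3), Function.Injective q → IsTask (S.d i) D f →
        ∃ k : Y → S'.X i, (∀ y z, S'.d i (k y) (k z) = D y z) ∧
          ∀ y u, S'.d i (j i u) (k y) = f y u := by
  choose X' d' j hsp hiso hty htask using
    fun i => h1 (V i) (S.X i) ((Σ k, S.X k) × Fin 3) (S.d i) (S.sp i)
  exact ⟨⟨X', d', hsp⟩, j, hiso, hty, htask⟩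

theorem tTwr (h1 : S_Amg.{u}) : S_Twr.{u} := by
  intro I V _
  choose nx jx hiso hty htask using fun S : Stg I V => stg_next h1 I V S
  let S0 : Stg I V :=
    { X := fun _ => PUnit
      d := fun _ _ _ => ⊥
      sp := fun i => by
        have hs : Lab.sg (⊥ : V i) = ⊥ := by
          have h2 : Lab.sg (⊥ : V i) ≤ ⊥ := by
            have h3 : Lab.sg (⊥ ⊔ Lab.sg (⊥ : V i)) = Lab.sg ⊥ ⊔ Lab.sg (Lab.sg ⊥) :=
              Lab.sg_sup _ _
            rw [bot_sup_eq, Lab.sg_sg, sup_bot_eq] at h3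
            rw [← h3]
          exact le_bot_iff.1 h2
        exact ⟨fun _ => rfl, fun _ _ => hs.symm, fun _ _ _ => bot_le⟩ }
  let sq : ℕ → Stg I V := fun n => Nat.rec S0 (fun _ S => nx S) n
  refine ⟨fun i =>
    { X := fun n => (sq n).X i
      d := fun n => (sq n).d i
      j := fun n => jx (sq n) i
      sp := fun n => (sq n).sp i
      iso := fun n => hiso (sq n) i }, ?_, ?_, ?_, ?_⟩
  · exact fun i => ⟨PUnit.unit⟩
  · exact fun i x y => rfl
  · exact fun i n y => hty (sq n) i y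
  · exact fun i n Y D f q hq hT => htask (sq n) i Y D f q hq hT

end MP81G
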