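import Pool.Agent.Lib.MP_81b71e_G.Typ
import Pool.Agent.Lib.MP_81b71e_G.Lst
import Pool.Agent.Lib.MP_81b71e_G.Trn
import Pool.Agent.Lib.MP_81b71e_G.Amg
import Pool.Agent.Lib.MP_81b71e_G.Lnk
import Pool.Agent.Lib.MP_81b71e_G.Jgd
import Pool.Agent.Lib.MP_81b71e_G.Sgd
import Pool.Agent.Lib.MP_81b71e_G.Ngd
import Pool.Agent.Lib.MP_81b71e_G.Lim
import Pool.Agent.Lib.MP_81b71e_G.Ext
import Pool.Agent.Lib.MP_81b71e_G.Twr
import Pool.Agent.Lib.MP_81b71e_G.Sat
import Pool.Agent.Lib.MP_81b71e_G.Rlz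
import Pool.Agent.Lib.MP_81b71e_G.Ker
import Pool.Agent.Lib.MP_81b71e_G.Pr
import Pool.Agent.Lib.MP_81b71e_G.Tra
import Pool.Agent.Lib.MP_81b71e_G.Cls
import Pool.Agent.Lib.MP_81b71e_G.Cmp

/-!
# The main theorems: kernel operators and complemented modular lattices
-/

set_option autoImplicit false

namespace MP81G

open Pool.Agent.Lib.MP_81b71e_al

universe u

theorem m_Sat : S_Sat.{u} :=
  tSat tTyp tTrn (tTwr (tAmg tTyp (tLst tTyp))) tLim tExt tJgd (tSgd tLnk) (tNgd tLnk)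

theorem m_Ker : S_Ker.{u} := tKer m_Sat tRlz

theorem m_Cmp : S_Cmp.{u} := tCmp m_Ker (tTra tPr) (tCls tPr)

theorem thick_mem {L : Type u} [Lattice L] [OrderBot L] [IsUpperModularLattice L]
    {L₂ : Set L} (hR : Realizable L L₂) {r : L} (hr : Thick r) : r ∈ L₂ := by
  obtain ⟨a, b, c, ha, hb, hc, hab, hac, hbc, rfl, hcr⟩ := hr
  apply line_mem hR ha hb hc le_sup_left le_sup_right hcr hab hac hbc
  · intro p q hp hq hpr hqr hpq
    exact (atoms_line ha hb hab hp hq hpr hqr hpq).ge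
  · intro p q hp hq hqr hpr
    exact atoms_mod hp hqr hpr

theorem complemented_modular (L : Type u) [CompleteLattice L] [IsCompactlyGenerated L]
    [IsModularLattice L] [ComplementedLattice L] (L₂ : Set L) :
    Realizable L L₂ ↔ ∃ θ : L ≃o L, (∀ x, θ (θ x) = x) ∧ (∀ r, Thick r → θ r = r) ∧
      L₂ = {x | θ x = x} := by
  constructor
  · intro h
    obtain ⟨θ, h1, h2⟩ := h.exists_involution
    refine ⟨θ, h1, ?_, h2⟩
    intro r hr
    have h3 := thick_mem h hr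
    rw [h2] at h3
    exact h3
  · rintro ⟨θ, h1, h2, rfl⟩
    exact m_Cmp L θ h1 h2

end MP81G
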