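import Pool.Agent.Lib.MP_81b71e_G.Defs

/-!
# MP_81b71e_al, theorem K: statements

HOW TO USE THIS FILE. Every statement `S_Name` is to be proved in the file `Pool/Agent/Lib/MP_81b71e_G/Name.lean` as
`theorem tName (h1 : S_X) (h2 : S_Y) .. : S_Name` (the hypotheses are the statements listed under `uses`), namespace `MP81G`. The docstring
contains the complete proof. `s` is written for `sg`, `v` for `⊔`, `d(u,y)` for `d u y`; `t` is called symmetric if `s t = t`. Basic facts (private lemmas, prove them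
where needed): `s` is monotone, `s ⊥ = ⊥`, `x ≤ s y` iff `s x ≤ y`; in a space `s (d x y) = d y x`.

LEMMA A. If `t` is not symmetric and not `x ≤ t`, then `x v t` is symmetric (otherwise `t ≤ x v t` and `atm` give `t = ⊥`, impossible, or `t = x v t`), so
`t, s t, s x ≤ x v t`. Applying `s`: `s x v s t = x v t`.
LEMMA B. Let `t = d(c,e)` be not symmetric, `d(e,u) ≤ t`. Then `d(c,u) = t`, `d(u,c) = s t`. Proof: `d(c,u) ≤ d(c,e) v d(e,u) ≤ t`, so `d(c,u) = ⊥` or `t`; if it is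
`⊥` then `t = d(c,e) ≤ d(c,u) v d(u,e) = s(d(e,u)) ≤ s t`, so (apply `s`) `s t ≤ t`, `s t = t`, a contradiction. Also: `¬ d(e,c) ≤ t` (as `d(e,c) = s t`).
-/

set_option autoImplicit false

namespace MP81G

open Pool.Agent.Lib.MP_81b71e_al

universe u

/-- **Typ** (100 lines). The triangle inequalities for the types.

Proof. One gate: immediate. Two gates `(c, e, s₀)`, `t = d(c,e)`, `P(u)` means `d(e,u) ≤ t`; `f u = s t = d(u,c)` if `P(u)` (Lemma B), `f u = d(u,c) v s₀` otherwise.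
(1) `P(u), P(v)`: clear. `P(u), ¬P(v)`: `f u = d(u,c) ≤ d(u,v) v d(v,c)`. `¬P(u), P(v)`: `d(e,u) ≤ d(e,v) v d(v,u) ≤ t v d(v,u)`, so not `d(v,u) ≤ t`; by Lemma A
`m = d(v,u) v t = d(u,v) v s t` is symmetric and `≥ t, s t`; `d(u,c) ≤ d(u,v) v d(v,c) = d(u,v) v s t = m`, `s₀ ≤ t v s t ≤ m`. `¬P(u), ¬P(v)`: clear.
(2) `P(u), P(v)`: `d(u,v) ≤ d(u,e) v d(e,v) ≤ s t v t`. `P(u), ¬P(v)`: `f u v s(f v) ≥ d(u,c) v d(c,v)`. `¬P(u), P(v)`: `f u v s (s t) ≥ d(u,c) v t`, and `t = d(c,v)`.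
`¬P(u), ¬P(v)`: clear. -/
def S_Typ : Prop :=
  ∀ (V X : Type u) [Lab V] (d : X → X → V), IsSp d → ∀ f : X → V, Ty d f →
    (∀ u v, f u ≤ d u v ⊔ f v) ∧ ∀ u v, d u v ≤ f u ⊔ sg (f v)

/-- **Lst** (120 lines, uses `S_Typ`). The distance between two new points.

Proof. Let `(1)`, `(2)` be the two inequalities of `S_Typ`. If `f` has one gate `(w, s₀)`: `s(f v) v g v = d(w,v) v s s₀ v g v ≥ s s₀ v g w` by (1) for `g`, and
`s(f w) = s s₀`; `u = w`. If `f` has two gates `(c, e, s₀)`, `t = d(c,e)`: let `A = s(f e) v g e = t v g e` and `B = s(f c) v g c = s s₀ v g c` (as `f c = d(c,c) v s₀ = s₀`). For `P(v)`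
(`d(e,v) ≤ t`): `s(f v) v g v = t v g v ≥ A`, as `g e ≤ d(e,v) v g v`. For `¬P(v)`: `s(f v) v g v = d(c,v) v s s₀ v g v ≥ B`. So every value is `≥ A` or `≥ B`. It remains to see
`A ≤ B` (then `u = e`) or `B ≤ A` (then `u = c`). If `g e ≤ t` then `A = t`; `g c ≤ d(c,e) v g e ≤ t`, so `g c = ⊥` or `t`; `⊥` is impossible because (2) gives
`t = d(c,e) ≤ g c v s(g e) ≤ s t`; so `B ≥ t = A`. If not `g e ≤ t` then `A = g e v t` is symmetric and contains `t, s t`, and `B ≤ (t v s t) v (t v g e) ≤ A`. -/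
def S_Lst : Prop :=
  ∀ (V X : Type u) [Lab V] (d : X → X → V), IsSp d → ∀ f g : X → V, Ty d f → Ty d g →
    ∃ u, ∀ v, sg (f u) ⊔ g u ≤ sg (f v) ⊔ g v

/-- **Trn** (120 lines). Types are transported along maps which are isometric after a homomorphism of the labels.

Proof. One gate `(w, s₀)`: `f' u' = d'(u', g w) v F s₀` (and `f w = s₀`). Two gates `(c, e, s₀)`, `t = d(c,e)`, `t' = F t = d'(g c, g e)`, `P(u)`: `d(e,u) ≤ t`.
Case `s t' = t'`: `f' u' = d'(u', g c) v F s₀` (one gate). `f' (g u) = F (d(u,c) v s₀)`, which is `F (f u)` if `¬P(u)`; if `P(u)`, then `d(u,c) = s t` (Lemma B), `F s₀ ≤ t' v s t' = t'`, so both are `t'`.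
The last claim: the gate `w = c`, `f c = s₀` (as `¬ P(c)`). Case `s t' ≠ t'`: two gates `(g c, g e, F s₀)`. `P(u)` gives `d'(g e, g u) ≤ t'`, `f' (g u) = s t' = F (s t)`. `¬P(u)`: `d(e,u) v t` is
symmetric (Lemma A), so `F(d(e,u)) v t'` is symmetric, so not `d'(g e, g u) ≤ t'` (otherwise `t'` would be symmetric), `f' (g u) = d'(g u, g c) v F s₀ = F (f u)`. The last claim: if
`d'(g e, u') ≤ t'` then `f' u' = s t'` and `w = e`: `f e = s t`, `d'(u', g e) ≤ s t'`. Otherwise `w = c`. -/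
def S_Trn : Prop :=
  ∀ (V W X Y : Type u) [Lab V] [Lab W] (F : V → W), IsHom F → ∀ (d : X → X → V) (d' : Y → Y → W),
    IsSp d → IsSp d' → ∀ g : X → Y, (∀ x y, d' (g x) (g y) = F (d x y)) →
    ∀ f : X → V, Ty d f → ∃ f' : Y → W, Ty d' f' ∧ (∀ u, f' (g u) = F (f u)) ∧
      ∀ u', ∃ w, f' u' = d' u' (g w) ⊔ F (f w)

/-- **Amg** (350 lines, uses `S_Typ`, `S_Lst`). All tasks at once.

Proof. Let `T` be the type of all `τ : (B → B → V) × (B → X → V)` with `IsTask d τ.1 τ.2` (subtype), `X' = X ⊕ T × B`, `j = inl`. For types `f, g` let `l(f,g)` be the value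
`s(f u) v g u` for a `u` as in `S_Lst` (chosen), so `l(f,g) ≤ s(f v) v g v` for all `v`; `l(g,f) = s l(f,g)` (both `≤`: apply `s`). Distances `d'`: on `X`: `d`; `u ∈ X, y = (τ,b)`: `f_y u = τ.2 b u`,
and `s(f_y u)` in the other direction; `(τ,b), (τ,b')`: `τ.1 b b'`; `(τ,b), (τ',b')` with `τ ≠ τ'`: `l(f_y, f_y')`. Write (1), (2) for the inequalities of `S_Typ`, (3), (4) for `st1`, `st2`. Triangle
inequalities (`u, v ∈ X`, `y, z, w` new): `f_y u ≤ d(u,v) v f_y v` (1); `d(u,v) ≤ f_y u v s f_y v` (2); `f_z u ≤ f_y u v d'(y,z)`: (3), or for different tasks with `d'(y,z) = s f_y v v f_z v`: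
`f_y u v s f_y v v f_z v ≥ d(u,v) v f_z v ≥ f_z u`; `d'(y,z) ≤ s f_y u v f_z u`: (4) or the definition of `l`; `d'(y,w) ≤ d'(y,z) v d'(z,w)`: all in the same task: `IsSp`. `y, z` in one task, `w`
in another one: `d'(z,w) = s f_z u v f_w u`, `s f_y u ≤ s f_z u v D(y,z)` (apply `s` to (3)), so the right side is `≥ s f_y u v f_w u ≥ l`. `z, w` in one task: the same (or apply `s`). `y, w` in one
task, `z` in another one or all in different tasks: `d'(y,z) v d'(z,w) = s f_y u v f_z u v s f_z v v f_w v ≥ s f_y u v d(u,v) v f_w v ≥ s f_y u v f_w u ≥ d'(y,w)`. The other inequalities follow by applying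
`s`. The points of `X` have the one gate type `(x, ⊥)`. The last claim: if `Y` is empty clear; otherwise let `r : B → Y` be a left inverse of the injection; the pulled back task
`(fun b b' => D (r b) (r b'), fun b => f (r b))` is in `T`, and the map is `y ↦ (τ, i y)`. -/
def S_Amg : Prop :=
  ∀ (V X B : Type u) [Lab V] (d : X → X → V), IsSp d →
    ∃ (X' : Type u) (d' : X' → X' → V) (j : X → X'), IsSp d' ∧ (∀ x y, d' (j x) (j y) = d x y) ∧
      (∀ y, Ty d (fun u => d' (j u) y)) ∧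
      ∀ (Y : Type u) (D : Y → Y → V) (f : Y → X → V) (i : Y → B), Function.Injective i →
        IsTask d D f → ∃ k : Y → X', (∀ y z, d' (k y) (k z) = D y z) ∧
          ∀ y u, d' (j u) (k y) = f y u

/-- **Lnk** (120 lines). Several copies of a space `X`, connected by links: a link `(x, w, x')` from the copy `i` to the copy `j` connects the point `x` of the copy `i` with the point `x'` of the copy
`j` by a step with label `w`.

Proof. `D (i,x) (j,y)` is the least element (hypothesis `lst`) of the `d(x,a) v w v d(a',y)`, `(a,w,a') ∈ Λ i j`. `D (i,x) (i,y) = d(x,y)`: the link `(x, ⊥, x)`, and the triangle inequality. Symmetry: `sy`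
and uniqueness of the least element. Triangle inequality for `(i,x), (j,y), (k,z)`: attained at `(a,w,a') ∈ Λ i j` and `(b,v,b') ∈ Λ j k`; the sum is `≥ d(x,a) v [w v d(a',b) v v] v d(b',z)` and by `cl` the
bracket is `≥ d(a,c) v q v d(c',b')` for a link `(c,q,c') ∈ Λ i k`. -/
def S_Lnk : Prop :=
  ∀ (V X : Type u) [Lab V] (d : X → X → V), IsSp d → ∀ (I : Type) (Λ : I → I → Set (X × V × X)),
    (∀ i (l : X × V × X), l ∈ Λ i i ↔ l.1 = l.2.2 ∧ l.2.1 = ⊥) →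
    (∀ i j (l : X × V × X), l ∈ Λ i j → (l.2.2, sg l.2.1, l.1) ∈ Λ j i) →
    (∀ i j k, i ≠ j → j ≠ k → ∀ l ∈ Λ i j, ∀ m ∈ Λ j k, ∃ n ∈ Λ i k,
      d l.1 n.1 ⊔ n.2.1 ⊔ d n.2.2 m.2.2 ≤ l.2.1 ⊔ d l.2.2 m.1 ⊔ m.2.1) →
    (∀ i j, i ≠ j → ∀ x y, ∃ l ∈ Λ i j, ∀ m ∈ Λ i j,
      d x l.1 ⊔ l.2.1 ⊔ d l.2.2 y ≤ d x m.1 ⊔ m.2.1 ⊔ d m.2.2 y) →
    ∃ D : X × I → X × I → V, IsSp D ∧ (∀ i x y, D (x, i) (y, i) = d x y) ∧
      ∀ i j x y, (∀ l ∈ Λ i j, D (x, i) (y, j) ≤ d x l.1 ⊔ l.2.1 ⊔ d l.2.2 y) ∧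
        ∃ l ∈ Λ i j, D (x, i) (y, j) = d x l.1 ⊔ l.2.1 ⊔ d l.2.2 y

/-- **Jgd** (120 lines). The join gadget: three points `p, q, r` between `a` and `b`, labels `t₁, t₂, t₁, t₂`, `κ = t₁ v t₂`.

Proof. First on three points (then pull back along `Prod.snd`): `D 0 1 = t₂`, `D 1 0 = s t₂`, `D 1 2 = t₁`, `D 2 1 = s t₁`, `D 0 2 = D 2 0 = κ`; types (one gate) `f 0 u = d(u,a) v t₁`, `f 1 u = d(u,a) v κ`,
`f 2 u = d(u,b) v s t₂`. As `κ` is symmetric, `t₁, t₂, s t₁, s t₂, d(a,b), d(b,a) ≤ κ`. `IsSp`: clear. `st1`: `f 1 ≤ f 0 v t₂`; `f 0 ≤ f 1 v ..`; `f 2 u = d(u,b) v s t₂ ≤ d(u,a) v κ = f 1 u`;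
`f 1 u = d(u,a) v κ ≤ d(u,b) v κ = f 2 u v s t₁` (as `κ = s t₁ v s t₂`); `f 2 ≤ f 0 v κ`, `f 0 ≤ f 2 v κ`. `st2`: `s(f 1 u), f 1 u ≥ κ`; `κ = s t₁ v s t₂ ≤ s(f 0 u) v f 2 u`, `κ = t₁ v t₂ ≤ s(f 2 u) v f 0 u`.
`f 0 a = t₁`, `f 2 b = s t₂`. -/
def S_Jgd : Prop :=
  ∀ (V X : Type u) [Lab V] (d : X → X → V), IsSp d → ∀ (a b : X) (t₁ t₂ : V),
    sg (t₁ ⊔ t₂) = t₁ ⊔ t₂ → d a b ≤ t₁ ⊔ t₂ →
    ∃ (D : X × Fin 3 → X × Fin 3 → V) (f : X × Fin 3 → X → V), IsTask d D f ∧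
      ∃ p q r, f p a = t₁ ∧ D p q = t₂ ∧ D q r = t₁ ∧ f r b = sg t₂

/-- **Sgd** (200 lines, uses `S_Lnk`). Symmetric label `t = d(a,b)`: a 4-cycle of four copies of `X` (copy `3` is the given space).

Proof. `S_Lnk` with `I = Fin 4` and one link for each pair (and its reverse): `0-1: (b,⊥,a)`, `1-2: (b,⊥,a)`, `0-2: (a,d(c,e),b)`, `0-3: (a,⊥,c)`, `2-3: (b,⊥,e)`, `1-3: (a,t,c)`; that is `Λ i j = {(x i j, w i j, x j i)}` with
`x 0 1 = b, x 0 2 = x 0 3 = a, x 1 0 = x 1 3 = a, x 1 2 = b, x 2 0 = x 2 3 = b, x 2 1 = a, x 3 0 = x 3 1 = c, x 3 2 = e`. The condition (closure) for different `i, j, k`: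
`d(x i j, x i k) v w i k v d(x k i, x k j) ≤ w i j v d(x j i, x j k) v w j k`. Let `p = d(c,e) ≤ t`, so `s p ≤ t`, `d(b,a) = t`. 012: `t ≤ t`. 021: `t ≤ p v t`. 102: `t ≤ t v p`. 013: `t ≤ t`. 031: `t ≤ t`. 103: `t ≤ t`.
023: `p ≤ p`. 032: `p ≤ p`. 203: `s p ≤ s p`. 123: `t v p ≤ t`. 132: `t ≤ t v p`. 213: `t v s p ≤ t`; the reversed ones follow by applying `s`. For `k = i`: `⊥ ≤ ..`, clear. Then `D` is the distance on the copies
`0, 1, 2` and `f (y,i) u` the distance from `(u,3)` to `(y,i)`: one gate types `(c, d(a,y))`, `(c, t v d(a,y))`, `(e, d(b,y))`; `st1`, `st2` are triangle inequalities. -/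
def S_Sgd : Prop :=
  ∀ (V X : Type u) [Lab V] (d : X → X → V), IsSp d → ∀ a b c e : X,
    sg (d a b) = d a b → d c e ≤ d a b →
    ∃ (D : X × Fin 3 → X × Fin 3 → V) (f : X × Fin 3 → X → V), IsTask d D f ∧
      (∀ i x y, D (x, i) (y, i) = d x y) ∧ f (a, 0) c = ⊥ ∧ D (b, 0) (a, 1) = ⊥ ∧
      D (b, 1) (a, 2) = ⊥ ∧ f (b, 2) e = ⊥

/-- **Ngd** (250 lines, uses `S_Lnk`). Nonsymmetric label `t = d(a,b) = d(c,e)`: a 3-cycle of three copies of `X` (copy `2` is the given space).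

Proof. `S_Lnk` with `I = Fin 3`: `0-1: (b,⊥,a)`; `0-2: (a,⊥,c), (b,t,e)`; `1-2: (b,⊥,e), (a,s t,c)` (and the reverses). Closure, `i ≠ j ≠ k`: (0,1,2): `(b,⊥,a),(b,⊥,e)`: `(b,t,e)`, `t ≤ d(a,b)`. `(b,⊥,a),(a,s t,c)`: `(a,⊥,c)`,
`d(b,a) ≤ s t`. (0,2,1): `(b,⊥,a)` for all: `d(a,b) ≤ t`. `(a,⊥,c),(e,⊥,b)`: `d(a,b) v d(a,b) ≤ d(c,e)`; `(a,⊥,c),(c,t,a)`; `(b,t,e),(e,⊥,b)`; `(b,t,e),(c,t,a)`: clear. (1,0,2): `(a,⊥,b),(a,⊥,c)`: `(a,s t,c)`, `s t ≤ d(b,a)`.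
`(a,⊥,b),(b,t,e)`: `(b,⊥,e)`, `d(a,b) ≤ t`. The reversed triples by `s`. `k = i`: (0,1,0), (1,0,1): clear. (0,2,0): `(a,⊥,c),(e,s t,b)`: `d(a,b) ≤ d(c,e)`; `(b,t,e),(c,⊥,a)`: `d(b,a) ≤ d(e,c)`; the others clear. (2,0,2): `(c,⊥,a),(b,t,e)`:
`d(c,e) ≤ d(a,b)`; `(e,s t,b),(a,⊥,c)`: `d(e,c) ≤ d(b,a)`. (1,2,1), (2,1,2): the same with `a, b` and `c, e` exchanged. Least element for `0-2`, points `y` (copy 0), `u` (copy 2), reversed: `A = d(u,c) v d(a,y)`, `B = d(u,e) v s t v d(b,y)`. If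
`d(e,u) ≤ t` and `d(y,b) ≤ t`: `B = s t ≤ A` as `d(u,c) = s t` (Lemma B). Otherwise `A ≤ B`: if not `d(e,u) ≤ t` then `d(u,e) v s t` is symmetric (Lemma A for `s t`), so `B ≥ t, s t`, and `d(u,c) ≤ d(u,e) v s t`,
`d(a,y) ≤ t v d(b,y)`; if not `d(y,b) ≤ t` then `s t v d(b,y)` is symmetric, the same. Types over the copy 2: `y` in the copy 0: two gates `(c, e, d(a,y))` if `d(y,b) ≤ t` (`d(a,y) ≤ t v d(b,y) ≤ t v s t`), otherwise one gate `(c, d(a,y))`.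
`z` in the copy 1: `C = d(u,e) v d(b,z)` and `E = d(u,c) v t v d(a,z)`: this is the same situation with `(a, b, c, e, t)` replaced by `(b, a, e, c, s t)`: two gates `(e, c, d(b,z))` if `d(a,z) ≤ t`, otherwise one gate `(e, d(b,z))`.
`D`: pull back the distance on the copies `0, 1` along `Fin 3 → Fin 2`, `0 ↦ 0`, `1 ↦ 1`, `2 ↦ 1`. `st1`, `st2` are triangle inequalities. Recommended: prove the statement about `0-2` as a private lemma in general form and use it twice. -/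
def S_Ngd : Prop :=
  ∀ (V X : Type u) [Lab V] (d : X → X → V), IsSp d → ∀ a b c e : X,
    sg (d a b) ≠ d a b → d c e = d a b →
    ∃ (D : X × Fin 3 → X × Fin 3 → V) (f : X × Fin 3 → X → V), IsTask d D f ∧
      (∀ i x y, D (x, i) (y, i) = d x y) ∧ f (a, 0) c = ⊥ ∧ D (b, 0) (a, 1) = ⊥ ∧
      f (b, 1) e = ⊥

/-- **Lim** (120 lines). The limit of a tower.

Proof. `Z = Σ n, T.X n`, `e n x = ⟨n, x⟩`; for `n ≤ m` let `U : T.X n → T.X m` be the iterated `j` (`Nat.leRecOn`), an isometry; `D ⟨n,x⟩ ⟨m,y⟩` is the distance of the images in `T.X (max n m)`; it is equal to the distance of the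
images in `T.X k` for every `k ≥ n, m`. -/
def S_Lim : Prop :=
  ∀ (V : Type u) [Lab V] (T : Tower V), ∃ (Z : Type u) (D : Z → Z → V) (e : ∀ n, T.X n → Z),
    IsLim T D e

/-- **Ext** (200 lines). Extension of maps to the limits.

Proof. By recursion there are `g n : T.X (n₀ + n) → T'.X (n₀ + n + 1)`, `g 0 = g₀`, isometric after `F` (`d' (g x) (g y) = F (d x y)`), with `d' (j' (g n x)) (g (n+1) (j x)) = ⊥` (hypothesis `el`; use a subtype and `Nat.rec`). Every `z : Z` is at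
distance `⊥` from some `e (n₀ + n) x` (iterate `comp`); choose one and put `G z = e' (n₀ + n + 1) (g n x)`. Two representatives (`n, x` and `m, y` with `n ≤ m`): the image `x'` of `x` in `T.X (n₀ + m)` has
`D' (e' (g n x)) (e' (g m x')) = ⊥` (induction on `m - n`), and points at distance `⊥` have the same distances to all points. So `D' (G z) (G z') = F (D z z')`. -/
def S_Ext : Prop :=
  ∀ (V W : Type u) [Lab V] [Lab W] (F : V → W), IsHom F → ∀ (T : Tower V) (T' : Tower W)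
    (Z Z' : Type u) (D : Z → Z → V) (D' : Z' → Z' → W) (e : ∀ n, T.X n → Z)
    (e' : ∀ n, T'.X n → Z'), IsLim T D e → IsLim T' D' e' →
    (∀ (n : ℕ) (g : T.X n → T'.X (n + 1)), (∀ x y, T'.d (n + 1) (g x) (g y) = F (T.d n x y)) →
      ∃ g' : T.X (n + 1) → T'.X (n + 2),
        (∀ x y, T'.d (n + 2) (g' x) (g' y) = F (T.d (n + 1) x y)) ∧
        ∀ x, T'.d (n + 2) (T'.j (n + 1) (g x)) (g' (T.j n x)) = ⊥) →
    ∀ (n₀ : ℕ) (g₀ : T.X n₀ → T'.X (n₀ + 1)),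
      (∀ x y, T'.d (n₀ + 1) (g₀ x) (g₀ y) = F (T.d n₀ x y)) →
      ∃ G : Z → Z', (∀ x y, D' (G x) (G y) = F (D x y)) ∧
        ∀ x, D' (G (e n₀ x)) (e' (n₀ + 1) (g₀ x)) = ⊥

/-- **Twr** (120 lines, uses `S_Amg`). The towers.

Proof. Simultaneous recursion on `n` for all `i`: `X_i 0 = PUnit`, `d = ⊥`; `X_i (n+1)` from `S_Amg` for `V i`, `X_i n`, `B = (Σ k, X_k n) × Fin 3` (choice). -/
def S_Twr : Prop :=
  ∀ (I : Type u) (V : I → Type u) [∀ i, Lab (V i)], ∃ T : ∀ i, Tower (V i),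
    (∀ i, Nonempty ((T i).X 0)) ∧ (∀ i (x y : (T i).X 0), x = y) ∧
    (∀ i n y, Ty ((T i).d n) (fun u => (T i).d (n + 1) ((T i).j n u) y)) ∧
    ∀ i n (Y : Type u) (D : Y → Y → V i) (f : Y → (T i).X n → V i)
      (q : Y → (Σ k, (T k).X n) × Fin 3), Function.Injective q → IsTask ((T i).d n) D f →
      ∃ k : Y → (T i).X (n + 1), (∀ y z, (T i).d (n + 1) (k y) (k z) = D y z) ∧
        ∀ y u, (T i).d (n + 1) ((T i).j n u) (k y) = f y u

/-- **Sat** (300 lines, uses `S_Typ`, `S_Trn`, `S_Twr`, `S_Lim`, `S_Ext`, `S_Jgd`, `S_Sgd`, `S_Ngd`). The saturated spaces.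

Proof. `T` from `S_Twr`, `Z_i, D_i` the limits of `T i`. THE EXTENSION PROPERTY (hypothesis of `S_Ext`), for `F = Φ i k : V i → V k`: let `g : X_i n → X_k (n+1)` with `d (g x) (g y) = F (d x y)`. For `y ∈ X_i (n+1)` let `f_y u = d (j u) y` (a type over
`X_i n`) and `f'_y` its transport by `S_Trn` along `g`. Then `(X_i (n+1), F ∘ d, f')` is a task over `X_k (n+1)`: st1: `f'_y u' = d(u', g w) v F (f_y w)` for some `w`, and by `S_Typ` `f'_z u' ≤ d(u', g w) v f'_z (g w) = d(u', g w) v F (f_z w)`,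
`f_z w ≤ f_y w v d(y,z)`. st2: `s(f'_y u') v f'_z u' = d(g w, u') v s F (f_y w) v f'_z u' ≥ s F (f_y w) v f'_z (g w) = F (s(f_y w) v f_z w) ≥ F (d(y,z))`. The map `q`: `y ↦ (⟨i, y⟩, 0)`. So we get `g' : X_i (n+1) → X_k (n+2)`, and
`d (j (g x)) (g' (j x)) = f'_(j x) (g x) = F (d (j x) (j x)) = ⊥`. (J) Choose `n, x, y` with `a = e n x`, `b = e n y` up to distance `⊥` (a common stage). If `t₁ v t₂` is not symmetric then (`atm`) `t₁ = t₁ v t₂` or `t₂ = t₁ v t₂`, one step is enough. Otherwise the gadget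
`S_Jgd` (`q`: `(x, i) ↦ (⟨i₀, x⟩, i)`) gives a path with the labels `t₁, t₂, t₁, t₂` (the last one: `s(s t₂)`). (H) the same for `a, b, c, e` on a common stage `n`; if `D a b` is symmetric: `S_Sgd` gives three isometric maps `X_i n → X_i (n+1)` (`x ↦ k (x, l)`), extended by `S_Ext`
(`F = id`) to `Z_i`; if `D a b` is not symmetric then (`atm`) `D c e = ⊥` (one step) or `D c e = D a b`, and `S_Ngd` gives two maps. (X) `g₀ : X_i 0 → X_k 1` the constant map (`F ⊥ = ⊥`), extended by `S_Ext`. (L) the one point task with the one gate type `(pt, v)` over `X_i 0`. -/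
def S_Sat : Prop :=
  ∀ (I : Type u) (V : I → Type u) [∀ i, Lab (V i)] (F : ∀ i k, V i → V k),
    (∀ i k, IsHom (F i k)) → ∃ (Z : I → Type u) (D : ∀ i, Z i → Z i → V i),
    (∀ i, IsSp (D i)) ∧ (∀ i, Nonempty (Z i)) ∧
    (∀ i (a b : Z i) (t₁ t₂ : V i), D i a b ≤ t₁ ⊔ t₂ →
      Relation.ReflTransGen (fun x y => D i x y ≤ t₁ ∨ D i x y ≤ t₂) a b) ∧
    (∀ i (a b c e : Z i), D i c e ≤ D i a b →
      Relation.ReflTransGen (fun x y => D i x y = ⊥ ∨ ∃ f : Z i → Z i,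
        (∀ p q, D i (f p) (f q) = D i p q) ∧ D i (f a) x = ⊥ ∧ D i (f b) y = ⊥) c e) ∧
    (∀ i k, ∃ f : Z i → Z k, ∀ p q, D k (f p) (f q) = F i k (D i p q)) ∧
    ∀ i (v : V i), ∃ a b, D i a b = v

/-- **Rlz** (200 lines). From a pseudo space to `Realizable`; adapt `Pool/Agent/Lib/MP_81b71e_al/Cd/Real.lean` (`Space.realizable`, `Space.realizable_sep`, helper82).

Proof. As there: representatives `r x` of the classes `d = ⊥`, the algebra `A' = {x // r x = x}` with all the operations which preserve all the relations `d a b ≤ z`; the quasiorders `R_z = {(a,b) | d a b ≤ z}`. Every preserved quasiorder `σ` of `A'` is `R_z` for `z = ⨆ {d a b | σ a b}`: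
let `x, y ∈ A'`, `d x y ≤ z`; `d x y` is compact, so `d x y ≤ T.sup` for finitely many pairs of `σ`. Apply `gen` to `ρ p q = σ (r p) (r q)` on `A`: (1) `d p q = ⊥` gives `r p = r q`; (2) transitive; (3) if `f` is a contraction of `A` then `r ∘ f` restricted to `A'` is a unary operation which
preserves all `R_z`. -/
def S_Rlz : Prop :=
  ∀ (L : Type u) [CompleteLattice L] [IsCompactlyGenerated L] (θ : L ≃o L) (A : Type u)
    (d : A → A → L), (∀ x, θ (θ x) = x) → Nonempty A → GSp θ d → Realizable L {x | θ x = x}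

/-- **Ker** (350 lines, uses `S_Sat`, `S_Rlz`). THEOREM K.

Proof. `V i = {x : L // IsCompactElement x ∧ φ i x = x}`, `sg = θ`, a label semilattice by `h_atm`, closed under `⊔` by `h_sup` (and `⊥`: `φ i ⊥ ≤ ⊥`). `F i k x = φ k x`, a homomorphism. Let `Z_i, D_i` be as in `S_Sat`, `o_i ∈ Z_i`, `A = {x : ∀ i, Z_i // {i | x i ≠ o i} finite}`,
`d x y = ⨆ i, D_i (x i) (y i)`, a finite join of compact elements. `GSp`: `comp, self, symm, tri`: clear. `all`: `s` compact, `s ≤ T.sup (φ · s)`; choose `x, y` with `D_i (x i) (y i) = φ i s` for `i ∈ T`, and `x i = y i = o i` otherwise; `φ i s ≤ s`. `gen`: let `r` be given. For `w ∈ A`, `x ∈ Z_i` let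
`w[i:=x]` be `w` with the coordinate `i` replaced by `x`. CONTRACTIONS used: (a) `x ↦ w[i := x i]`, (b) `x ↦ o[k := g (x i)]` for `g : Z_i → Z_k` with `D_k (g p) (g q) = φ k (D_i p q) ≤ D_i p q`, (c) `x ↦ o[i := g (x i)]`, `g` isometric. Let `r_i p q` mean `r (o[i:=p]) (o[i:=q])`: transitive, contains
`D_i = ⊥`, preserved by the isometric maps. CLAIM 1: if `r_i a b` and `D_i c e ≤ D_i a b` then `r_i c e` (S_Sat (H), by induction on the chain). CLAIM 2: if `r_i (a_j) (b_j)` for finitely many pairs and `D_i c e ≤ ⨆_j D_i a_j b_j` then `r_i c e`: induction on the number of the pairs, S_Sat (J) with `t₁ = D_i a_1 b_1`,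
`t₂` = the join of the others, and Claim 1 and the induction hypothesis for the steps (no pairs: `D_i c e = ⊥`). Now let `T` be finite, `r p.1 p.2` for `p ∈ T`, `d x y ≤ ⨆ d p.1 p.2`. For every `k`: `D_k (x k) (y k) = φ k (D_k (x k) (y k)) ≤ φ k (⨆_p ⨆_i D_i (p.1 i) (p.2 i)) = ⨆_(p, i) φ k (D_i (p.1 i) (p.2 i))` (finite
joins, `i` with `p.1 i ≠ o i` or `p.2 i ≠ o i`). By (b) with the map `g` of S_Sat (X): `r_k (g (p.1 i)) (g (p.2 i))`, and these pairs have the labels `φ k (D_i ..)`. By Claim 2 `r_k (x k) (y k)`. Finally change the finitely many coordinates of `x` which are different from those of `y` one after the other: from `w` to `w[k := y k]`,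
`w k = x k`: apply (a) to `r (o[k:=x k]) (o[k:=y k])`. -/
def S_Ker : Prop :=
  ∀ (L : Type u) [CompleteLattice L] [IsCompactlyGenerated L] (θ : L ≃o L) (I : Type u)
    (φ : I → L → L), (∀ x, θ (θ x) = x) →
    (∀ i x, IsCompactElement x → IsCompactElement (φ i x)) →
    (∀ i x y, IsCompactElement x → IsCompactElement y → φ i (x ⊔ y) = φ i x ⊔ φ i y) →
    (∀ i x, IsCompactElement x → φ i (θ x) = θ (φ i x)) →
    (∀ i x, IsCompactElement x → φ i x ≤ x) →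
    (∀ i x, IsCompactElement x → φ i (φ i x) = φ i x) →
    (∀ x, IsCompactElement x → ∃ T : Finset I, x ≤ T.sup (fun i => φ i x)) →
    (∀ i x y, IsCompactElement x → IsCompactElement y → φ i x = x → φ i y = y → y < x → y ≠ ⊥ →
      θ x = x) →
    Realizable L {x | θ x = x}

/-- **Pr** (80 lines). Atoms below a join.

Proof. Suppose not `p ≤ x`, not `p ≤ y`. `z = (p ⊔ x) ⊓ y`; `x ⊔ z = (p ⊔ x) ⊓ (x ⊔ y) = p ⊔ x` (modular law), so `¬ z ≤ x` and (atomistic) there is an atom `r ≤ z`, `¬ r ≤ x`. `x < x ⊔ r ≤ x ⊔ p` and `x ⋖ x ⊔ p`, so `x ⊔ r = x ⊔ p`. `p ≠ r` (as `¬ p ≤ y`). `r ⊔ ((p ⊔ r) ⊓ x) = (p ⊔ r) ⊓ (r ⊔ x) ≥ p ⊔ r`, so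
there is an atom `q ≤ (p ⊔ r) ⊓ x` (otherwise `(p ⊔ r) ⊓ x = ⊥` and `p ≤ r`); `q ≠ r`, and `q ⊔ r = p ⊔ r` (two different atoms below `p ⊔ r`; `atoms_line` in `Pool/Agent/Lib/MP_81b71e_al/Lines.lean`), so `p ≤ q ⊔ r`. -/
def S_Pr : Prop :=
  ∀ (L : Type u) [Lattice L] [OrderBot L] [IsModularLattice L] [IsAtomistic L] (p x y : L),
    IsAtom p → p ≤ x ⊔ y → p ≤ x ∨ p ≤ y ∨ ∃ q r, IsAtom q ∧ IsAtom r ∧ q ≤ x ∧ r ≤ y ∧ p ≤ q ⊔ r

/-- **Tra** (100 lines, uses `S_Pr`). Perspectivity is an equivalence relation.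

Proof. Symmetric: clear. Transitive: let `p, q, r` be different, `a` a third atom on `p ⊔ q`, `b` a third atom on `q ⊔ r`. If `p ⊔ q = q ⊔ r` then `p ⊔ r = p ⊔ q` contains the third atom `q`. Otherwise: `p ≤ a ⊔ q`, `q ≤ b ⊔ r`, so `p ≤ (a ⊔ b) ⊔ r`; `¬ p ≤ r`; `¬ p ≤ a ⊔ b`: otherwise `p ⊔ a = a ⊔ b`
(if `a = b`: `a ≤ p ⊔ q, q ⊔ r`, `a ≠ q`, so `p ⊔ q = a ⊔ q = q ⊔ r`), `b ≤ p ⊔ a = p ⊔ q`, `q ⊔ b = p ⊔ q`, `q ⊔ b = q ⊔ r`, a contradiction. By `S_Pr` there is an atom `s ≤ a ⊔ b` with `p ≤ s ⊔ r` (the atom below `r` is `r`). `s ≠ r`, `s ≠ p`, and `s ⊔ r = p ⊔ r`, so `s` is a third atom on `p ⊔ r`. -/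
def S_Tra : Prop :=
  ∀ (L : Type u) [Lattice L] [OrderBot L] [IsModularLattice L] [IsAtomistic L] (p q r : L),
    IsAtom p → IsAtom q → IsAtom r → (Per p q → Per q p) ∧ (Per p q → Per q r → Per p r)

/-- **Cls** (150 lines, uses `S_Pr`). Let `C` be a set of atoms closed under perspectivity, `e = ⨆ C`. (1) the atoms below `e` are in `C`. (2) `x ↦ x ⊓ e` preserves joins. (3) it preserves compact elements.

Proof. (1) `a ≤ ⨆ C`, compact, so `a ≤` a finite join (`Finset`) of elements of `C`; induction: `a ≤ c ⊔ x`, `c ∈ C`, `x` a finite join of elements of `C` (all atoms below `x` are in `C`). By `S_Pr` `a ≤ c`, so `a = c`, or `a ≤ x`, or `a ≤ c ⊔ q`, `q ≤ x` an atom, so `q ∈ C`; if `a ≠ c, q` then (`c ≠ q`, otherwise `a = c`)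
`Per c a`: `a, c ≤ c ⊔ q = c ⊔ a` (`atoms_line`) and the third atom is `q`. (2) `≤`: by `IsAtomistic` for an atom `a ≤ (x ⊔ y) ⊓ e`: `a ≤ x` or `a ≤ y` clear; or `a ≤ q ⊔ r`, atoms `q ≤ x`, `r ≤ y`, `a ≠ q, r` (otherwise clear), `q ≠ r`; `Per a q`, `Per a r`, `a ∈ C` by (1), so `q, r ∈ C`,
`q, r ≤ e`. (3) a compact `x` is a finite join of atoms `p_j` (`IsAtomistic`, `x ≤ sSup {atoms below x}`), `x ⊓ e = ⨆_j (p_j ⊓ e)` by (2), every `p_j ⊓ e` is `⊥` or the atom `p_j` (atoms are compact: `IsAtom.isCompactElement` or from compactly generated). -/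
def S_Cls : Prop :=
  ∀ (L : Type u) [CompleteLattice L] [IsCompactlyGenerated L] [IsModularLattice L] [IsAtomistic L]
    (C : Set L), (∀ p ∈ C, IsAtom p) → (∀ p ∈ C, ∀ q, IsAtom q → Per p q → q ∈ C) →
    (∀ a, IsAtom a → a ≤ sSup C → a ∈ C) ∧
    (∀ x y : L, (x ⊔ y) ⊓ sSup C = (x ⊓ sSup C) ⊔ (y ⊓ sSup C)) ∧
    ∀ x : L, IsCompactElement x → IsCompactElement (x ⊓ sSup C)

/-- **Cmp** (200 lines, uses `S_Ker`, `S_Tra`, `S_Cls`). COMPLEMENTED MODULAR LATTICES, sufficiency.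

Proof. `IsAtomistic L` is in Mathlib (`isAtomistic_of_complementedLattice` or similar). `I = {p : L // IsAtom p}`, `C_p = {q | IsAtom q ∧ (Per p q ∨ Per (θ p) q)}` (closed under `Per` by `S_Tra`), `e_p = comp θ p = ⨆ C_p`, `φ p x = x ⊓ e_p`. `θ e_p = e_p` (`θ` preserves `Per` and `θ θ p = p`). The hypotheses of `S_Ker`: compact and joins: `S_Cls`; `θ`, `≤`,
idempotent: clear. A compact `x` is a finite join of atoms `q`, and `q ≤ x ⊓ e_q`. Last hypothesis: `y < x ≤ e_p`, `y ≠ ⊥`; suppose `θ x ≠ x`. There is an atom `q ≤ x` with `θ q ≠ q` (otherwise `x ≤ θ x` by `IsAtomistic`, so `θ x ≤ x`). `q ∈ C_p` by `S_Cls` (1). CLAIM: `e_p ≤ q ⊔ θ q`: let `r ∈ C_p`; by `S_Tra` `Per q r` or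
`Per (θ q) r`. If `r = q` or `r = θ q` clear. If the line `ℓ = q ⊔ r` has a third point, `θ ℓ = ℓ` by `hθ`, so `θ q ≤ ℓ`, `ℓ = q ⊔ θ q` (`atoms_line`), `r ≤ q ⊔ θ q`. The same for `ℓ = θ q ⊔ r`. Now `q ≤ x ≤ q ⊔ θ q`, and `q ⋖ q ⊔ θ q` (modular), so `x = q`, impossible (`⊥ ≠ y < x`), or `x = q ⊔ θ q`, `θ x = x`. -/
def S_Cmp : Prop :=
  ∀ (L : Type u) [CompleteLattice L] [IsCompactlyGenerated L] [IsModularLattice L]
    [ComplementedLattice L] (θ : L ≃o L), (∀ x, θ (θ x) = x) → (∀ r : L, Thick r → θ r = r) →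
    Realizable L {x | θ x = x}

end MP81G
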