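import Pool.Agent.Lib.MP_81b71e_G.Spec

/-! The triangle inequalities for the types. -/

set_option autoImplicit false

namespace MP81G

universe u

private theorem sgm {V : Type u} [Lab V] {x y : V} (h : x ≤ y) : sg x ≤ sg y := by
  have h1 : x ⊔ y = y := sup_eq_right.2 h
  have h2 : sg x ⊔ sg y = sg y := by rw [← sg_sup, h1]
  exact sup_eq_right.1 h2

private theorem sgb {V : Type u} [Lab V] : sg (⊥ : V) = ⊥ := by
  have h1 : sg (⊥ : V) ≤ sg (sg (⊥ : V)) := sgm bot_le
  rw [sg_sg] at h1
  exact le_bot_iff.1 h1

private theorem lemA {V : Type u} [Lab V] {t x : V} (ht : sg t ≠ t) (hx : ¬ x ≤ t) :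
    sg (x ⊔ t) = x ⊔ t := by
  by_contra h
  rcases Lab.atm (x ⊔ t) h t le_sup_right with h1 | h1
  · exact ht (by rw [h1]; exact sgb)
  · exact hx (by rw [h1]; exact le_sup_left)

private theorem lemB {V X : Type u} [Lab V] {d : X → X → V} (hd : IsSp d) {c e u : X}
    (ht : sg (d c e) ≠ d c e) (hu : d e u ≤ d c e) : d c u = d c e ∧ d u c = sg (d c e) := by
  have h1 : d c u ≤ d c e := (hd.tri c e u).trans (sup_le le_rfl hu)
  have h2 : d c u = d c e := by
    rcases Lab.atm (d c e) ht (d c u) h1 with h | h
    · exfalso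
      have h3 : d c e ≤ sg (d c e) := by
        refine (hd.tri c u e).trans (sup_le ?_ ?_)
        · rw [h]
          exact bot_le
        · rw [hd.symm e u]
          exact sgm hu
      have h4 : sg (d c e) ≤ d c e := by
        have h5 := sgm h3
        rwa [sg_sg] at h5
      exact ht (le_antisymm h4 h3)
    · exact h
  refine ⟨h2, ?_⟩
  rw [hd.symm c u, h2]

theorem tTyp : S_Typ := by
  intro V X _ d hd f hf
  rcases hf with ⟨w, s, hf⟩ | ⟨c, e, s, ht, hs, hP, hN⟩
  · refine ⟨fun u v => ?_, fun u v => ?_⟩
    · rw [hf u, hf v, ← sup_assoc]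
      exact sup_le_sup_right (hd.tri u v w) s
    · rw [hf u, hf v, sg_sup, ← hd.symm v w]
      refine (hd.tri u w v).trans (sup_le_sup le_sup_left le_sup_left)
  · refine ⟨fun u v => ?_, fun u v => ?_⟩
    · by_cases hu : d e u ≤ d c e
      · by_cases hv : d e v ≤ d c e
        · rw [hP u hu, hP v hv]
          exact le_sup_right
        · rw [hP u hu, hN v hv, ← (lemB hd ht hu).2]
          exact (hd.tri u v c).trans (sup_le_sup le_rfl le_sup_left)
      · by_cases hv : d e v ≤ d c e
        · rw [hN u hu, hP v hv]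
          have h1 : ¬ d v u ≤ d c e := fun h =>
            hu ((hd.tri e v u).trans (sup_le hv h))
          have h2 := lemA ht h1
          rw [sg_sup, ← hd.symm v u] at h2
          refine sup_le ?_ ?_
          · refine (hd.tri u v c).trans (sup_le_sup le_rfl ?_)
            rw [(lemB hd ht hv).2]
          · refine hs.trans (sup_le ?_ le_sup_right)
            rw [h2]
            exact le_sup_right
        · rw [hN u hu, hN v hv, ← sup_assoc]
          exact sup_le_sup_right (hd.tri u v c) s
    · by_cases hu : d e u ≤ d c e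
      · by_cases hv : d e v ≤ d c e
        · rw [hP u hu, hP v hv, sg_sg]
          refine (hd.tri u e v).trans (sup_le_sup ?_ hv)
          rw [hd.symm e u]
          exact sgm hu
        · rw [hP u hu, hN v hv, sg_sup, ← hd.symm v c, ← (lemB hd ht hu).2]
          exact (hd.tri u c v).trans (sup_le_sup le_rfl le_sup_left)
      · by_cases hv : d e v ≤ d c e
        · rw [hN u hu, hP v hv, sg_sg]
          refine (hd.tri u c v).trans (sup_le_sup le_sup_left ?_)
          rw [(lemB hd ht hv).1]
        · rw [hN u hu, hN v hv, sg_sup, ← hd.symm v c]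
          exact (hd.tri u c v).trans (sup_le_sup le_sup_left le_sup_left)

end MP81G
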